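import Pool.Agent.H89.IT.GlbC
import Pool.Agent.H89.FP.Place

/-!
# Zero-cycles of degree one on isotrivial varieties over global function fields

Let `k` be a finite field and `K ⊇ k` a field (for instance a global function field). Let `Y` be ANY
projective variety over `k`, `K'` a finite Galois extension of `K`, and `X` the form of `Y_K` over `K`
which is given by a homomorphism of the Galois group `G = Gal(K'/K)` to the group of automorphisms of `Y`
over `k`. We prove Question 1 (even without a Brauer-Manin condition) for `X`, if for every prime `ℓ`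

(*) there is a place `v` of `K` of degree prime to `ℓ` such that the ramification index of `v` in `K'` is
divisible by the full power of `ℓ` which divides `[K' : K]`;

for instance if some place of degree one is totally ramified in `K'`. More precisely: `X` has a zero-cycle
of degree one if it has one over the completions at these places.

Every such `X` is, in a suitable projective embedding, the image `A(Y)` of `Y ⊂ ℙ^n` under a matrix
`A ∈ GL_{n+1}(K')` such that the cocycle `A⁻¹ σ(A)` has (up to scalars) entries in `k`: `Y` has a very ample
line bundle with an action of `G`, and `H^1(G, GL_{n+1}(K'))` is trivial. This is the structure `IsTwist`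
(`H89/IT/Defs.lean`).

Examples. For `K = k(t)` and `G` cyclic of order `r` (prime to the characteristic, `μ_r ⊂ k`) the extension
is `K(u^{1/r})`, and (*) holds if for every `ℓ | r` there is a place of degree prime to `ℓ` where the order of
`u` is prime to `ℓ`, so for 100 % of the polynomials `u`: this gives the varieties defined by the equations
of a variety `Y` with an action of `μ_r` in which monomials of weight `j` are multiplied by `u^{j/r}`, for
example `u y^r = f(x)`, `F(x) = u G(z)`, quadratic twists of abelian varieties, of K3 surfaces with an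
involution, of Calabi-Yau varieties and so on. Totally ramified at the place at infinity are also, with
arbitrary wild ramification, all the Harbater-Katz-Gabber coverings of `ℙ^1`, whose groups are all the
extensions of cyclic groups of order prime to `p` by `p`-groups.

Proof. Let `L/K_v` be finite of degree prime to `ℓ` with `X(L)` nonempty, `M = L K'`, and `S` a Sylow
`ℓ`-subgroup of `Gal(M/L) ⊂ G`. By (*) and `e f = n` (in the form of a norm argument, `H89/FP/Red.lean`)
`S` is a Sylow subgroup of `G` and the residue field of `M` has a degree prime to `ℓ` over `k`, so `S` acts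
trivially on it (`H89/IT/Loc.lean`). Hence the reduction of a point is a point `b` of `Y` over a finite
extension `E/k` of degree prime to `ℓ` which is fixed by `S` (`H89/IT/LocC.lean`). It gives a point of `X` over
the fixed field of `S` in `E K'`, which has a degree prime to `ℓ` over `K` (`H89/IT/GlbC.lean`).
-/

set_option autoImplicit false
set_option linter.all false

open Module IsDedekindDomain
open scoped Classical NNReal

namespace Pool.Agent.Results.MP_1ad228_nt.IsotrivialVarieties

open Pool.Agent.H89.IT Pool.Agent.H89.FP

/-- A place of `K`, given by the completion `F` of `K` with its normalized discrete valuation; the residue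
field is contained in an extension of `k` of degree `deg`. -/
structure Place (k K : Type) [Field k] [Field K] [Algebra k K] : Type 1 where
  F : Type
  [field : Field F]
  [alg : Algebra K F]
  [valued : Valued F (WithZero (Multiplicative ℤ))]
  complete : CompleteSpace F
  dense : DenseRange (algebraMap K F)
  normalized : ∃ π : F, Valued.v (R := F) (Γ₀ := WithZero (Multiplicative ℤ)) π = WithZero.exp (-1 : ℤ)
  deg : ℕ
  pos : 0 < deg
  residue : ∀ x : F, Valued.v (R := F) (Γ₀ := WithZero (Multiplicative ℤ)) x ≤ 1 →
    Valued.v (R := F) (Γ₀ := WithZero (Multiplicative ℤ)) (x ^ (Nat.card k ^ deg) - x) < 1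

attribute [instance] Place.field Place.alg Place.valued

/-- the normalized absolute value `2 ^ (-ord_v(x))` of `x ∈ K` -/
noncomputable def Place.abs {k K : Type} [Field k] [Field K] [Algebra k K] (v : Place k K) (x : K) :
    ℝ≥0 :=
  WithZeroMulInt.toNNReal (e := 2) two_ne_zero
    (Valued.v (R := v.F) (Γ₀ := WithZero (Multiplicative ℤ)) (algebraMap K v.F x))

/-- the ramification index of `v` in `K'` is divisible by `n`: all extensions `w` of `v` to `K'` take the
value `1/n` of the valuation normalized on `K` -/
def Place.Ramified {k K : Type} [Field k] [Field K] [Algebra k K] (v : Place k K) (K' : Type) [Field K']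
    [Algebra K K'] (n : ℕ) : Prop :=
  ∀ w : Valuation K' ℝ≥0, (∀ x : K, w (algebraMap K K' x) = v.abs x) → ∃ y : K', w y ^ n = 1 / 2

/-- a point of `X` over a finite extension `L` of `F`, with an integral coefficient -/
structure Term {K : Type} [Field K] {N : ℕ} (X : Set (MvPolynomial (Fin N) K)) (F : Type) [Field F]
    [Algebra K F] where
  coef : ℤ
  L : Type
  [field : Field L]
  [alg : Algebra F L]
  [fin : FiniteDimensional F L]
  P : Fin N → L
  mem : Pts X ((algebraMap F L).comp (algebraMap K F)) P

attribute [instance] Term.field Term.alg Term.fin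

/-- the degree over `F` of a zero-cycle on `X` over `F` -/
noncomputable def degree {K : Type} [Field K] {N : ℕ} {X : Set (MvPolynomial (Fin N) K)} {F : Type}
    [Field F] [Algebra K F] (z : List (Term X F)) : ℤ :=
  (z.map fun T => T.coef * (finrank F T.L : ℤ)).sum

/-- `X` has a zero-cycle of degree one over `F` -/
def HasCycle {K : Type} [Field K] {N : ℕ} (X : Set (MvPolynomial (Fin N) K)) (F : Type) [Field F]
    [Algebra K F] : Prop :=
  ∃ z : List (Term X F), degree z = 1

/-! ### The places of `k(t)` -/

section examples

variable (k : Type) [Field k] [Finite k]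

/-- the finite places of `k(t)` -/
noncomputable def finitePlace (v : HeightOneSpectrum (Polynomial k)) : Place k (RatFunc k) :=
  have h := place_fin v
  { F := v.adicCompletion (RatFunc k)
    complete := h.complete
    dense := v.denseRange_algebraMap (RatFunc k)
    normalized := by
      obtain ⟨π, hπ⟩ := v.valuation_exists_uniformizer (RatFunc k)
      refine ⟨algebraMap _ _ π, ?_⟩
      rw [← hπ]
      exact v.valuedAdicCompletion_eq_valuation' π
    deg := finrank k (Polynomial k ⧸ v.asIdeal)
    pos := h.pos
    residue := h.res }

/-- the place at infinity of `k(t)` -/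
noncomputable def infinitePlace : Place k (RatFunc k) :=
  letI := algInf k
  have h : IsPlace k (RatFunc.CompletionAtInfty k) 1 := place_inf k
  { F := RatFunc.CompletionAtInfty k
    complete := h.complete
    dense := inf_dense k
    normalized := by
      refine ⟨algebraMap _ _ (algebraMap (Polynomial k) (RatFunc k) Polynomial.X)⁻¹, ?_⟩
      have h1 := inf_val k (algebraMap (Polynomial k) (RatFunc k) Polynomial.X)⁻¹
      have h2 : RatFunc.inftyValuation k (algebraMap (Polynomial k) (RatFunc k) Polynomial.X) =
          WithZero.exp ((Polynomial.X : Polynomial k).natDegree : ℤ) :=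
        RatFunc.inftyValuation.polynomial k Polynomial.X_ne_zero
      refine h1.trans ?_
      rw [map_inv₀, h2, Polynomial.natDegree_X, ← WithZero.exp_neg]
      rfl
    deg := 1
    pos := h.pos
    residue := h.res }

end examples

/-! ### The theorem -/

/-- from points of degree prime to `ℓ` to zero-cycles of degree one -/
theorem hasCycle_of {K : Type} [Field K] {N : ℕ} (X : Set (MvPolynomial (Fin N) K))
    (h : ∀ ℓ : ℕ, ℓ.Prime → ∃ (L : Type) (_ : Field L) (_ : Algebra K L) (P : Fin N → L),
      FiniteDimensional K L ∧ ¬ ℓ ∣ finrank K L ∧ Pts X (algebraMap K L) P) : HasCycle X K := by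
  let S : AddSubgroup ℤ :=
    { carrier := {n | ∃ z : List (Term X K), degree z = n}
      zero_mem' := ⟨[], rfl⟩
      add_mem' := by
        rintro a b ⟨z, rfl⟩ ⟨z', rfl⟩
        exact ⟨z ++ z', by simp [degree]⟩
      neg_mem' := by
        rintro a ⟨z, rfl⟩
        refine ⟨z.map fun T => { T with coef := -T.coef }, ?_⟩
        induction z with
        | nil => simp [degree]
        | cons T z ih =>
          unfold degree at ih ⊢
          rw [List.map_cons, List.map_cons, List.sum_cons, ih, List.map_cons, List.sum_cons]
          ring }
  have hS : ∀ (L : Type) [Field L] [Algebra K L] (P : Fin N → L)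
      [FiniteDimensional K L], Pts X (algebraMap K L) P → (finrank K L : ℤ) ∈ S := by
    intro L _ _ P _ hP
    refine ⟨[{ coef := 1, L := L, P := P, mem := ?_ }], ?_⟩
    · exact hP
    · simp [degree]
  obtain ⟨a, ha⟩ := Int.subgroup_cyclic S
  have hdvd : ∀ n ∈ S, a ∣ n := by
    intro n hn
    rw [ha, AddSubgroup.mem_closure_singleton] at hn
    obtain ⟨m, rfl⟩ := hn
    exact Dvd.intro_left m rfl
  have hmem : a ∈ S := by
    rw [ha]
    exact AddSubgroup.mem_closure_singleton_self a
  have hu : a.natAbs = 1 := by
    by_contra hne
    obtain ⟨ℓ, hℓ, hℓa⟩ := Nat.exists_prime_and_dvd hne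
    obtain ⟨L, iL, iA, P, hfd, hnd, hX⟩ := h ℓ hℓ
    have h1 := hdvd _ (hS L P hX)
    apply hnd
    have h2 : (ℓ : ℤ) ∣ (finrank K L : ℤ) := (Int.natCast_dvd.2 hℓa).trans h1
    exact_mod_cast h2
  have h1 : (1 : ℤ) ∈ S := by
    rcases Int.natAbs_eq a with h | h
    · rw [hu] at h
      rw [h] at hmem
      exact_mod_cast hmem
    · rw [hu] at h
      rw [h] at hmem
      have := S.neg_mem hmem
      simpa using this
  exact h1

/-- a point of degree prime to `ℓ` in a zero-cycle of degree one -/
theorem exists_term {K : Type} [Field K] {N : ℕ} {X : Set (MvPolynomial (Fin N) K)} {F : Type}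
    [Field F] [Algebra K F] {ℓ : ℕ} (hℓ : ℓ.Prime) (h : HasCycle X F) :
    ∃ T : Term X F, ¬ ℓ ∣ finrank F T.L := by
  obtain ⟨z, hz⟩ := h
  by_contra hcon
  push Not at hcon
  have h1 : ∀ z : List (Term X F), (ℓ : ℤ) ∣ degree z := by
    intro z
    induction z with
    | nil => simp [degree]
    | cons T z ih =>
      unfold degree at ih ⊢
      rw [List.map_cons, List.sum_cons]
      exact dvd_add (Dvd.dvd.mul_left (by exact_mod_cast hcon T) _) ih
  have h2 := h1 z
  rw [hz] at h2
  have h3 : ℓ ∣ 1 := by exact_mod_cast h2
  exact hℓ.one_lt.ne' (Nat.dvd_one.1 h3)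

/-- **Theorem.** Let `k` be a finite field, `K ⊇ k` a field, `K'` a finite Galois extension of `K`, `Y` a
projective variety over `k` and `X` a form of `Y` over `K` which is split by `K'`, with a constant cocycle.
Suppose that for every prime `ℓ` there is a place `v` of `K` of degree prime to `ℓ` whose ramification index
in `K'` is divisible by the full power of `ℓ` in `[K' : K]`, and that `X` has a zero-cycle of degree one over
the completion `K_v`. Then `X` has a zero-cycle of degree one over `K`. -/
theorem result (k : Type) [Field k] [Finite k] (K : Type) [Field K] [Algebra k K] (K' : Type) [Field K']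
    [Algebra K K'] [FiniteDimensional K K'] [IsGalois K K'] (N : ℕ)
    (Y : Set (MvPolynomial (Fin N) k)) (X : Set (MvPolynomial (Fin N) K))
    (A : Matrix (Fin N) (Fin N) K') (hY : ∀ H ∈ Y, ∃ e, H.IsHomogeneous e)
    (hX : ∀ H ∈ X, ∃ e, H.IsHomogeneous e) (hA : IsTwist Y X A)
    (h : ∀ ℓ : ℕ, ℓ.Prime → ∃ v : Place k K, ¬ ℓ ∣ v.deg ∧
      v.Ramified K' (ℓ ^ (finrank K K').factorization ℓ) ∧ HasCycle X v.F) :
    HasCycle X K := by
  refine hasCycle_of X fun ℓ hℓ => ?_
  obtain ⟨v, hδ, hram, hc⟩ := h ℓ hℓ
  letI : Algebra k v.F := ((algebraMap K v.F).comp (algebraMap k K)).toAlgebra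
  have hpl : IsPlace k v.F v.deg := by
    refine ⟨v.complete, ?_, v.pos, v.residue⟩
    obtain ⟨π, hπ⟩ := v.normalized
    refine ⟨π, ?_, ?_⟩
    · rintro rfl
      rw [map_zero] at hπ
      exact WithZero.exp_ne_zero hπ.symm
    · change Valued.v (R := v.F) (Γ₀ := WithZero (Multiplicative ℤ)) π ≠ 1
      rw [hπ]
      intro h
      rw [← WithZero.exp_zero, WithZero.exp_inj] at h
      omega
  obtain ⟨T, hT⟩ := exists_term hℓ hc
  obtain ⟨E, _, _, b, S, hfd, hnd, hS, hb, hfix⟩ := local_const (k := k) (algebraMap K v.F)
    (fun c => rfl) hpl hℓ hδ hram hY hA T.L hT T.P T.mem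
  exact const_global hℓ hX hA E hnd b S hS hb hfix

end Pool.Agent.Results.MP_1ad228_nt.IsotrivialVarieties
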