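import Pool.Agent.H89.FP.Place
import Pool.Agent.H89.FP.Glob

/-!
# The Brauer–Manin obstruction for zero-cycles of degree one on the members of pencils over finite fields

Let `k` be a finite field, `K = k(t)`, and let `Y ⊂ ℙ^n` be ANY projective variety over `k` (constant
coefficients; for example `Y = ℙ^n`). We prove Question 1 for the varieties `X` over `K` of the two types

* `X ⊂ Y` is the hypersurface section `A(x) + u(t) B(x) = 0`, where `A, B` are forms over `k` of any degree
  `d`, `u` is a polynomial over `k` of degree prime to `d` (for example `u = t`, the generic member of the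
  pencil spanned by `A` and `B`), and `Y` contains a line over `k`;
* `X` is the cyclic covering `y^r = A(x) + u(t) B(x)` of `Y`, `A, B` forms of degree divisible by `r`, `u` a
  polynomial of degree prime to `r`, and `Y` has a rational point over `k`.

For `Y = ℙ^n` these are curves, cubic surfaces, K3 surfaces (quartic surfaces, double planes with branch
curves of degree 6), and for large `d` varieties of general type of any dimension. The Brauer–Manin
obstruction occurs here, also for `X` with points everywhere locally (for example for pencils of cubic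
surfaces whose base curve consists of three conjugate twisted cubics). Let `V` be the base locus over `k`, defined in `Y` by `A = B = 0`,
respectively by `y^r = A`, `B = 0`, and let `ℓ` be a prime that divides `d` (respectively `r`). If the degrees
of all closed points of `V` are divisible by `ℓ`, then the Brauer class

  `α_ℓ = (χ_ℓ, B / x_0^deg B)`, `χ_ℓ` the character of the extension of `k` of degree `ℓ`,

is unramified on `X` (all components `W` of `V` are not geometrically irreducible: the algebraic closure of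
`k` in `k(W)` has a degree divisible by `ℓ`, because a geometrically irreducible variety over a finite field
has zero-cycles of degree one; so the residue of `α_ℓ` along the divisor `W_K` of `X` is zero), and the sum of
its local invariants is `deg u · deg z / ℓ` for ALL families `z` of local zero-cycles of the same degree
`deg z`. Otherwise `X` has a closed point of degree prime to `ℓ`, with constant coordinates.

So we prove: if there is a family of local zero-cycles of degree one at all places of `K` which is orthogonal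
to `α_ℓ` for all primes `ℓ` dividing `d` (respectively `r`) for which all closed points of `V` have degrees
divisible by `ℓ`, then `X` has a zero-cycle of degree one. Nothing is assumed on smoothness; for smooth `X`
the classes `α_ℓ` in question are in `Br(X)`, so the hypothesis follows from the orthogonality to `Br(X)`.

The local invariant at the place `v` of a zero-cycle `∑ n_P P` over `K_v`, `P` a point over `L/K_v` with
coordinates in `L`, is `deg(v) · ∑ n_P ord_v(N_{L/K_v} B(P)) / ℓ` in `ℚ/ℤ` (projection formula for the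
corestriction; it does not depend on the choice of the coordinates of `P` because `ℓ` divides `deg B`; if
`B(P) = 0` and the closed points of `V` have degrees divisible by `ℓ`, then `L` contains the extension of `k`
of degree `ℓ`, so the invariant is zero, in agreement with the convention `ord 0 = 0`).

Proof. If `L` contains the extension `k_ℓ` of `k` of degree `ℓ` and `ℓ` does not divide `deg(v)`, then
`L/K_v` contains an unramified extension of degree `ℓ`, so `[L : K_v]` and all `ord_v(N(x))` are divisible by
`ℓ` (`H89/FP/Red.lean`). Otherwise by Teichmüller lifting (`H89/FP/Tei.lean`) the residue field of `L` does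
not contain `k_ℓ`, so the reduction of `P` (`H89/FP/Rd2.lean`) is not on `V`, and then the equation of `X`
gives the absolute value of `B(P)` for primitive coordinates (`H89/FP/Pt.lean`, `H89/FP/Cyc.lean`).
-/

set_option autoImplicit false
set_option linter.all false

open Polynomial Module IsDedekindDomain
open scoped Classical

namespace Pool.Agent.Results.MP_1ad228_nt.PencilsOverFiniteFields

/-! ### Varieties over `k(t)`, their zero-cycles and the local invariants -/

section varieties

variable {k : Type} [Field k]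

/-- the value at `P` of a polynomial `H` with coefficients in `k`, for a field `L` that contains `k(t)` -/
noncomputable def ev {L : Type} [Field L] (φ : RatFunc k →+* L) {ι : Type} (H : MvPolynomial ι k)
    (P : ι → L) : L :=
  MvPolynomial.eval₂ (φ.comp (algebraMap k (RatFunc k))) P H

/-- A variety over `k(t)` in a (weighted) projective space, given by the coordinates of its points over all
fields `L` that contain `k(t)`. -/
abbrev Var (k : Type) [Field k] (ι : Type) : Type 1 :=
  ∀ (L : Type) [Field L], (RatFunc k →+* L) → (ι → L) → Prop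

/-- the hypersurface section `A(x) + u B(x) = 0` of the variety `Y` defined by the set `G` of forms -/
def Section {N : ℕ} (G : Set (MvPolynomial (Fin N) k)) (A B : MvPolynomial (Fin N) k) (u : k[X]) :
    Var k (Fin N) :=
  fun _ _ φ P => P ≠ 0 ∧ (∀ H ∈ G, ev φ H P = 0) ∧
    ev φ A P + φ (algebraMap k[X] (RatFunc k) u) * ev φ B P = 0

/-- The cyclic covering `y ^ r = A(x) + u B(x)` of the variety `Y` defined by the set `G` of forms; the
coordinates of a point `P` are `x_i = P (some i)` and `y = P none`. -/
def Covering (r : ℕ) {N : ℕ} (G : Set (MvPolynomial (Fin N) k)) (A B : MvPolynomial (Fin N) k)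
    (u : k[X]) : Var k (Option (Fin N)) :=
  fun _ _ φ P => (fun i => P (some i)) ≠ 0 ∧ (∀ H ∈ G, ev φ H (fun i => P (some i)) = 0) ∧
    P none ^ r = ev φ A (fun i => P (some i)) +
      φ (algebraMap k[X] (RatFunc k) u) * ev φ B (fun i => P (some i))

/-- a point of `X` over a finite extension `L` of `F`, with an integral coefficient -/
structure Term {ι : Type} (X : Var k ι) {F : Type} [Field F] (φ : RatFunc k →+* F) where
  coef : ℤ
  L : Type
  [field : Field L]
  [alg : Algebra F L]
  [fin : FiniteDimensional F L]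
  P : ι → L
  mem : X L ((algebraMap F L).comp φ) P

attribute [instance] Term.field Term.alg Term.fin

/-- the zero-cycles on `X` over the field `F` -/
abbrev Cycle {ι : Type} (X : Var k ι) {F : Type} [Field F] (φ : RatFunc k →+* F) : Type 1 :=
  List (Term X φ)

/-- the degree of a zero-cycle -/
noncomputable def degree {ι : Type} {X : Var k ι} {F : Type} [Field F] {φ : RatFunc k →+* F}
    (z : Cycle X φ) : ℤ := (z.map fun T => T.coef * (finrank F T.L : ℤ)).sum

/-- the normalized order on a completion, with `ord 0 = 0` -/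
noncomputable def ord (F : Type) [Field F] [Valued F (WithZero (Multiplicative ℤ))] (x : F) : ℤ :=
  -(WithZero.log (Valued.v (R := F) (Γ₀ := WithZero (Multiplicative ℤ)) x))

/-- `∑ n_P ord(N_{L/F} H(P))` -/
noncomputable def value {ι : Type} {X : Var k ι} {F : Type} [Field F]
    [Valued F (WithZero (Multiplicative ℤ))] {φ : RatFunc k →+* F} (H : MvPolynomial ι k)
    (z : Cycle X φ) : ℤ :=
  (z.map fun T => T.coef * ord F (Algebra.norm F (ev ((algebraMap F T.L).comp φ) H T.P))).sum

/-- a zero-cycle of degree one over `k(t)` -/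
def HasCycle {ι : Type} (X : Var k ι) : Prop :=
  ∃ z : Cycle X (RingHom.id (RatFunc k)), degree z = 1

/-- a family of zero-cycles of degree one over all the completions of `k(t)` -/
structure Adelic {ι : Type} (X : Var k ι) where
  fin : ∀ v : HeightOneSpectrum k[X], Cycle X (algebraMap (RatFunc k) (v.adicCompletion (RatFunc k)))
  inf : Cycle X (algebraMap (RatFunc k) (RatFunc.CompletionAtInfty k))
  degree_fin : ∀ v, degree (fin v) = 1
  degree_inf : degree inf = 1

/-- the sum over all places of the local invariants (times `ℓ`) of the class `(χ_ℓ, H)` at the zero-cycles -/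
noncomputable def Adelic.invariant {ι : Type} {X : Var k ι} (z : Adelic X) (H : MvPolynomial ι k)
    (ℓ : ℕ) : ZMod ℓ :=
  (∑ᶠ v : HeightOneSpectrum k[X],
    (((finrank k (k[X] ⧸ v.asIdeal) : ℤ) * value H (z.fin v) : ℤ) : ZMod ℓ)) +
    ((value H z.inf : ℤ) : ZMod ℓ)

/-- the degrees of all the closed points of the base locus `V : A = B = 0` of `Y` are divisible by `ℓ` -/
def BaseDivisible (ℓ : ℕ) {N : ℕ} (G : Set (MvPolynomial (Fin N) k)) (A B : MvPolynomial (Fin N) k) :
    Prop :=
  ∀ (E : Type) [Field E] [Algebra k E] [FiniteDimensional k E] (b : Fin N → E), b ≠ 0 →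
    (∀ H ∈ G, MvPolynomial.aeval b H = 0) → MvPolynomial.aeval b A = 0 →
    MvPolynomial.aeval b B = 0 → ℓ ∣ finrank k E

/-- the same for the base locus `V : y ^ r = A, B = 0` of the cyclic covering -/
def BaseDivisible' (ℓ r : ℕ) {N : ℕ} (G : Set (MvPolynomial (Fin N) k))
    (A B : MvPolynomial (Fin N) k) : Prop :=
  ∀ (E : Type) [Field E] [Algebra k E] [FiniteDimensional k E] (b : Fin N → E) (y : E), b ≠ 0 →
    (∀ H ∈ G, MvPolynomial.aeval b H = 0) → y ^ r = MvPolynomial.aeval b A →
    MvPolynomial.aeval b B = 0 → ℓ ∣ finrank k E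

/-- `Y` contains a line over `k` -/
def HasLine {N : ℕ} (G : Set (MvPolynomial (Fin N) k)) : Prop :=
  ∃ p q : Fin N → k, (∀ a b : k, (∀ i, a * p i + b * q i = 0) → a = 0 ∧ b = 0) ∧
    ∀ H ∈ G, ∀ (E : Type) [Field E] [Algebra k E] (a b : E),
      MvPolynomial.aeval (fun i => a * algebraMap k E (p i) + b * algebraMap k E (q i)) H = 0

/-- `Y` has a rational point over `k` -/
def HasRationalPoint {N : ℕ} (G : Set (MvPolynomial (Fin N) k)) : Prop :=
  ∃ p : Fin N → k, p ≠ 0 ∧ ∀ H ∈ G, MvPolynomial.aeval p H = 0

end varieties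

section proof

variable {k : Type} [Field k]

/-! ### Existence of zero-cycles of degree one -/

/-- from points of degree prime to `ℓ` to zero-cycles of degree one -/
theorem hasCycle_of {ι : Type} (X : Var k ι)
    (h : ∀ ℓ : ℕ, ℓ.Prime → ∃ (L : Type) (_ : Field L) (_ : Algebra (RatFunc k) L) (P : ι → L),
      FiniteDimensional (RatFunc k) L ∧ ¬ ℓ ∣ finrank (RatFunc k) L ∧
        X L (algebraMap (RatFunc k) L) P) : HasCycle X := by
  let S : AddSubgroup ℤ :=
    { carrier := {n | ∃ z : Cycle X (RingHom.id (RatFunc k)), degree z = n}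
      zero_mem' := ⟨[], rfl⟩
      add_mem' := by
        rintro a b ⟨z, rfl⟩ ⟨z', rfl⟩
        exact ⟨z ++ z', by simp [degree]⟩
      neg_mem' := by
        rintro a ⟨z, rfl⟩
        refine ⟨z.map fun T => { T with coef := -T.coef }, ?_⟩
        induction z with
        | nil => simp [degree]
        | cons T z ih =>
          unfold degree at ih ⊢
          rw [List.map_cons, List.map_cons, List.sum_cons, ih, List.map_cons, List.sum_cons]
          ring }
  have hS : ∀ (L : Type) [Field L] [Algebra (RatFunc k) L] (P : ι → L)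
      [FiniteDimensional (RatFunc k) L], X L (algebraMap (RatFunc k) L) P →
      (finrank (RatFunc k) L : ℤ) ∈ S := by
    intro L _ _ P _ hP
    refine ⟨[{ coef := 1, L := L, P := P, mem := ?_ }], ?_⟩
    · rw [RingHom.comp_id]; exact hP
    · simp [degree]
  obtain ⟨a, ha⟩ := Int.subgroup_cyclic S
  have hdvd : ∀ n ∈ S, a ∣ n := by
    intro n hn
    rw [ha, AddSubgroup.mem_closure_singleton] at hn
    obtain ⟨m, rfl⟩ := hn
    exact Dvd.intro_left m rfl
  have hmem : a ∈ S := by
    rw [ha]
    exact AddSubgroup.mem_closure_singleton_self a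
  have hu : a.natAbs = 1 := by
    by_contra hne
    obtain ⟨ℓ, hℓ, hℓa⟩ := Nat.exists_prime_and_dvd hne
    obtain ⟨L, iL, iA, P, hfd, hnd, hX⟩ := h ℓ hℓ
    have h1 := hdvd _ (hS L P hX)
    apply hnd
    have h2 : (ℓ : ℤ) ∣ (finrank (RatFunc k) L : ℤ) :=
      (Int.natCast_dvd.2 hℓa).trans h1
    exact_mod_cast h2
  have h1 : (1 : ℤ) ∈ S := by
    rcases Int.natAbs_eq a with h | h
    · rw [hu] at h
      rw [h] at hmem
      exact_mod_cast hmem
    · rw [hu] at h
      rw [h] at hmem
      have := S.neg_mem hmem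
      simpa using this
  exact h1

/-- the value of the polynomials as `aeval` -/
theorem ev_eq {L : Type} [Field L] [Algebra (RatFunc k) L] {ι : Type} (H : MvPolynomial ι k)
    (P : ι → L) : ev (algebraMap (RatFunc k) L) H P =
      letI : Algebra k L := ((algebraMap (RatFunc k) L).comp (algebraMap k (RatFunc k))).toAlgebra
      MvPolynomial.aeval P H := rfl

theorem ev_map {k : Type} [Field k] {E L : Type} [Field E] [Algebra k E] [Field L]
    (φ : RatFunc k →+* L) (g : E →+* L)
    (hg : ∀ c : k, g (algebraMap k E c) = φ (algebraMap k (RatFunc k) c)) {ι : Type}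
    (H : MvPolynomial ι k) (b : ι → E) :
    ev φ H (fun i => g (b i)) = g (MvPolynomial.aeval b H) := by
  unfold ev
  rw [MvPolynomial.aeval_def, MvPolynomial.hom_eval₂]
  congr 1
  ext c
  exact (hg c).symm

variable [Finite k]

/-- constant points of degree prime to `ℓ` -/
theorem const_section {ℓ N : ℕ} {G : Set (MvPolynomial (Fin N) k)} {A B : MvPolynomial (Fin N) k}
    (u : k[X]) (h : ¬ BaseDivisible ℓ G A B) :
    ∃ (L : Type) (_ : Field L) (_ : Algebra (RatFunc k) L) (P : Fin N → L),
      FiniteDimensional (RatFunc k) L ∧ ¬ ℓ ∣ finrank (RatFunc k) L ∧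
        Section G A B u L (algebraMap (RatFunc k) L) P := by
  unfold BaseDivisible at h
  push Not at h
  obtain ⟨E, iE, iA, hfd, b, hb, hG, hA, hB, hd⟩ := h
  obtain ⟨L, iL, iA', hfd', hnd, g, hg⟩ :=
    Pool.Agent.H89.FP.exists_const_ext (K := RatFunc k) (ℓ := ℓ) E hd
  refine ⟨L, iL, iA', fun i => g (b i), hfd', hnd, ?_, ?_, ?_⟩
  · intro h0
    apply hb
    funext i
    have h1 := congrFun h0 i
    exact (map_eq_zero g).1 h1
  · intro H hH
    rw [ev_map _ g hg, hG H hH, map_zero]
  · rw [ev_map _ g hg, ev_map _ g hg, hA, hB, map_zero, mul_zero, add_zero]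

theorem const_covering {ℓ r N : ℕ} {G : Set (MvPolynomial (Fin N) k)}
    {A B : MvPolynomial (Fin N) k} (u : k[X]) (h : ¬ BaseDivisible' ℓ r G A B) :
    ∃ (L : Type) (_ : Field L) (_ : Algebra (RatFunc k) L) (P : Option (Fin N) → L),
      FiniteDimensional (RatFunc k) L ∧ ¬ ℓ ∣ finrank (RatFunc k) L ∧
        Covering r G A B u L (algebraMap (RatFunc k) L) P := by
  unfold BaseDivisible' at h
  push Not at h
  obtain ⟨E, iE, iA, hfd, b, y, hb, hG, hA, hB, hd⟩ := h
  obtain ⟨L, iL, iA', hfd', hnd, g, hg⟩ :=
    Pool.Agent.H89.FP.exists_const_ext (K := RatFunc k) (ℓ := ℓ) E hd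
  refine ⟨L, iL, iA', fun o => o.elim (g y) fun i => g (b i), hfd', hnd, ?_, ?_, ?_⟩
  · intro h0
    apply hb
    funext i
    have h1 := congrFun h0 i
    exact (map_eq_zero g).1 h1
  · intro H hH
    change ev _ H (fun i => g (b i)) = 0
    rw [ev_map _ g hg, hG H hH, map_zero]
  · change g y ^ r = ev _ A (fun i => g (b i)) + _ * ev _ B (fun i => g (b i))
    rw [ev_map _ g hg, ev_map _ g hg, hB, map_zero, mul_zero, add_zero, ← hA, map_pow]

/-- points on a line, of degree prime to `ℓ` if `ℓ` does not divide `d` -/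
theorem line_section {ℓ N d : ℕ} (hℓ : ℓ.Prime) (hd : ¬ ℓ ∣ d) {G : Set (MvPolynomial (Fin N) k)}
    {A B : MvPolynomial (Fin N) k} (hA : A.IsHomogeneous d) (hB : B.IsHomogeneous d) (u : k[X])
    (hL : HasLine G) :
    ∃ (L : Type) (_ : Field L) (_ : Algebra (RatFunc k) L) (P : Fin N → L),
      FiniteDimensional (RatFunc k) L ∧ ¬ ℓ ∣ finrank (RatFunc k) L ∧
        Section G A B u L (algebraMap (RatFunc k) L) P := by
  obtain ⟨p, q, hpq, hG⟩ := hL
  set K := RatFunc k with hK
  set U : K := algebraMap k[X] K u with hU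
  let ln : Fin N → K[X] := fun i => C (algebraMap k K (p i)) + C (algebraMap k K (q i)) * X
  obtain ⟨hA1, hA2⟩ := Pool.Agent.H89.FP.line_poly (K := K) hA p q
  obtain ⟨hB1, hB2⟩ := Pool.Agent.H89.FP.line_poly (K := K) hB p q
  let h : K[X] := MvPolynomial.aeval ln A + C U * MvPolynomial.aeval ln B
  have h1 : h.natDegree ≤ d := (natDegree_add_le _ _).trans
    (max_le hA1 ((natDegree_C_mul_le _ _).trans hB1))
  have h2 : h.coeff d = MvPolynomial.aeval (fun i => algebraMap k K (q i)) A +
      U * MvPolynomial.aeval (fun i => algebraMap k K (q i)) B := by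
    simp only [h]
    rw [coeff_add, coeff_C_mul, hA2, hB2]
  by_cases h3 : h.coeff d = 0
  · -- the rational point `q`
    refine ⟨K, inferInstance, Algebra.id K, fun i => algebraMap k K (q i), inferInstance, ?_, ?_, ?_, ?_⟩
    · rw [finrank_self]
      exact hℓ.one_lt.ne' ∘ Nat.dvd_one.1
    · intro h0
      have h4 := (hpq 0 1 fun i => by
        have h5 := congrFun h0 i
        have h6 : q i = 0 := (map_eq_zero (algebraMap k K)).1 h5
        rw [h6]; ring).2
      exact one_ne_zero h4
    · intro H hH
      have h4 := hG H hH K 0 1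
      simp only [zero_mul, one_mul, zero_add] at h4
      exact h4
    · rw [h2] at h3
      exact h3
  · have hh0 : h ≠ 0 := by
      intro h0
      rw [h0, coeff_zero] at h3
      exact h3 rfl
    have h4 : h.natDegree = d := le_antisymm h1 (le_natDegree_of_ne_zero h3)
    obtain ⟨L, iL, iA, x, hfd, hnd, hx⟩ := Pool.Agent.H89.FP.exists_root_ext (ℓ := ℓ) h hh0
      (by rwa [h4])
    letI : Algebra k L := ((algebraMap K L).comp (algebraMap k K)).toAlgebra
    haveI : IsScalarTower k K L := IsScalarTower.of_algebraMap_eq' rfl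
    let P : Fin N → L := fun i => algebraMap k L (p i) + algebraMap k L (q i) * x
    have hev : ∀ H : MvPolynomial (Fin N) k, aeval x (MvPolynomial.aeval ln H : K[X]) =
        MvPolynomial.aeval P H := by
      intro H
      let ψ : K[X] →ₐ[k] L := (aeval x : K[X] →ₐ[K] L).restrictScalars k
      have e : ψ.comp (MvPolynomial.aeval ln) = MvPolynomial.aeval P := by
        apply MvPolynomial.algHom_ext
        intro i
        rw [AlgHom.comp_apply, MvPolynomial.aeval_X, MvPolynomial.aeval_X]
        change aeval x (C (algebraMap k K (p i)) + C (algebraMap k K (q i)) * X) = _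
        rw [map_add, map_mul, aeval_C, aeval_C, aeval_X]
        rfl
      exact congrArg (fun f : MvPolynomial (Fin N) k →ₐ[k] L => f H) e
    refine ⟨L, iL, iA, P, hfd, hnd, ?_, ?_, ?_⟩
    · intro h0
      have h5 : ∀ i, algebraMap k L (p i) + algebraMap k L (q i) * x = 0 := fun i => congrFun h0 i
      by_cases hq : ∃ j, q j ≠ 0
      · obtain ⟨j, hj⟩ := hq
        have hx' : x = algebraMap k L (-(p j) / q j) := by
          have hj' : algebraMap k L (q j) ≠ 0 := by rwa [Ne, map_eq_zero]
          rw [map_div₀, map_neg, eq_div_iff hj']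
          linear_combination h5 j
        have h6 := (hpq 1 (-(p j) / q j) fun i => by
          apply (algebraMap k L).injective
          rw [map_add, map_mul, map_mul, map_one, map_zero, ← hx', one_mul]
          linear_combination h5 i).1
        exact one_ne_zero h6
      · push Not at hq
        have h6 := (hpq 0 1 fun i => by rw [hq i]; ring).2
        exact one_ne_zero h6
    · intro H hH
      have h5 := hG H hH L 1 x
      have h6 : (fun i => 1 * algebraMap k L (p i) + x * algebraMap k L (q i)) = P := by
        funext i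
        simp only [P]
        ring
      rw [h6] at h5
      exact h5
    · have h5 : aeval x h = MvPolynomial.aeval P A + algebraMap K L U * MvPolynomial.aeval P B := by
        simp only [h]
        rw [map_add, map_mul, aeval_C, hev, hev]
      rw [hx] at h5
      exact h5.symm

/-- points over a rational point, of degree prime to `ℓ` if `ℓ` does not divide `r` -/
theorem fibre_covering {ℓ r N : ℕ} (hr : ¬ ℓ ∣ r) {G : Set (MvPolynomial (Fin N) k)}
    {A B : MvPolynomial (Fin N) k} (u : k[X]) (hP : HasRationalPoint G) :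
    ∃ (L : Type) (_ : Field L) (_ : Algebra (RatFunc k) L) (P : Option (Fin N) → L),
      FiniteDimensional (RatFunc k) L ∧ ¬ ℓ ∣ finrank (RatFunc k) L ∧
        Covering r G A B u L (algebraMap (RatFunc k) L) P := by
  obtain ⟨p, hp, hG⟩ := hP
  set K := RatFunc k with hK
  have hr0 : r ≠ 0 := by rintro rfl; exact hr (dvd_zero _)
  set c : K := algebraMap k K (MvPolynomial.aeval p A) +
    algebraMap k[X] K u * algebraMap k K (MvPolynomial.aeval p B) with hc
  have hm : (X ^ r - C c : K[X]).Monic := monic_X_pow_sub_C c hr0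
  obtain ⟨L, iL, iA, x, hfd, hnd, hx⟩ := Pool.Agent.H89.FP.exists_root_ext (ℓ := ℓ)
    (X ^ r - C c : K[X]) hm.ne_zero (by rwa [natDegree_X_pow_sub_C])
  let g : k →+* L := (algebraMap K L).comp (algebraMap k K)
  have hev : ∀ H : MvPolynomial (Fin N) k, ev (algebraMap K L) H (fun i => g (p i)) =
      g (MvPolynomial.aeval p H) := fun H => ev_map (E := k) _ g (fun c => rfl) H p
  refine ⟨L, iL, iA, fun o => o.elim x fun i => g (p i), hfd, hnd, ?_, ?_, ?_⟩
  · intro h0
    apply hp
    funext i
    have h1 := congrFun h0 i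
    exact (map_eq_zero g).1 h1
  · intro H hH
    change ev _ H (fun i => g (p i)) = 0
    rw [hev, hG H hH, map_zero]
  · change x ^ r = ev _ A (fun i => g (p i)) + _ * ev _ B (fun i => g (p i))
    rw [hev, hev]
    rw [map_sub, map_pow, aeval_X, aeval_C, sub_eq_zero] at hx
    rw [hx, hc, map_add, map_mul]
    rfl

/-! ### The local invariants -/

theorem sum_dvd {α : Type 1} (l : List α) (f g : α → ℤ) (ℓ δ : ℤ) (m : ℤ)
    (h : ∀ T ∈ l, ℓ ∣ δ * (f T - m * g T)) (c : α → ℤ) :
    ℓ ∣ δ * ((l.map fun T => c T * f T).sum - m * (l.map fun T => c T * g T).sum) := by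
  induction l with
  | nil => simp
  | cons T l ih =>
    rw [List.map_cons, List.sum_cons, List.map_cons, List.sum_cons]
    have h1 := ih fun T hT => h T (List.mem_cons_of_mem _ hT)
    have h2 := h T List.mem_cons_self
    have e : δ * (c T * f T + (l.map fun T => c T * f T).sum -
        m * (c T * g T + (l.map fun T => c T * g T).sum)) = c T * (δ * (f T - m * g T)) +
        δ * ((l.map fun T => c T * f T).sum - m * (l.map fun T => c T * g T).sum) := by ring
    rw [e]
    exact dvd_add (Dvd.dvd.mul_left h2 _) h1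

/-- the invariants are determined by the local computation -/
theorem invariant_eq {ι : Type} {X : Var k ι} (z : Adelic X) (H : MvPolynomial ι k) (ℓ M : ℕ)
    (h1 : ∀ v : HeightOneSpectrum k[X], ∀ T ∈ z.fin v,
      (ℓ : ℤ) ∣ (finrank k (k[X] ⧸ v.asIdeal) : ℤ) * (ord (v.adicCompletion (RatFunc k))
        (Algebra.norm (v.adicCompletion (RatFunc k))
          (ev ((algebraMap (v.adicCompletion (RatFunc k)) T.L).comp
            (algebraMap (RatFunc k) (v.adicCompletion (RatFunc k)))) H T.P)) -
          (0 : ℤ) * finrank (v.adicCompletion (RatFunc k)) T.L))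
    (h2 : ∀ T ∈ z.inf, (ℓ : ℤ) ∣ 1 * (ord (RatFunc.CompletionAtInfty k)
        (Algebra.norm (RatFunc.CompletionAtInfty k)
          (ev ((algebraMap (RatFunc.CompletionAtInfty k) T.L).comp
            (algebraMap (RatFunc k) (RatFunc.CompletionAtInfty k))) H T.P)) -
          (M : ℤ) * finrank (RatFunc.CompletionAtInfty k) T.L)) :
    z.invariant H ℓ = (M : ZMod ℓ) := by
  unfold Adelic.invariant
  have e1 : ∀ v : HeightOneSpectrum k[X],
      (((finrank k (k[X] ⧸ v.asIdeal) : ℤ) * value H (z.fin v) : ℤ) : ZMod ℓ) = 0 := by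
    intro v
    rw [ZMod.intCast_zmod_eq_zero_iff_dvd]
    have := sum_dvd (z.fin v) _ _ (ℓ : ℤ) _ _ (h1 v) (fun T => T.coef)
    rw [zero_mul, sub_zero] at this
    exact this
  rw [finsum_congr e1, finsum_zero, zero_add]
  have h3 := sum_dvd z.inf _ _ (ℓ : ℤ) _ _ h2 (fun T => T.coef)
  have h4 : (ℓ : ℤ) ∣ value H z.inf - M * degree z.inf := by
    rw [one_mul] at h3
    exact h3
  rw [z.degree_inf, mul_one] at h4
  have h5 := (ZMod.intCast_zmod_eq_zero_iff_dvd _ ℓ).2 h4
  rw [Int.cast_sub, sub_eq_zero] at h5
  rw [h5]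
  simp

theorem section_invariant {ℓ N d : ℕ} (hℓ : ℓ.Prime) (hd : ℓ ∣ d)
    {G : Set (MvPolynomial (Fin N) k)} (hG : ∀ H ∈ G, ∃ e, H.IsHomogeneous e)
    {A B : MvPolynomial (Fin N) k} (hA : A.IsHomogeneous d) (hB : B.IsHomogeneous d) {u : k[X]}
    (hu : u ≠ 0) (hV : BaseDivisible ℓ G A B) (z : Adelic (Section G A B u)) :
    z.invariant B ℓ = (u.natDegree : ZMod ℓ) := by
  refine invariant_eq z B ℓ u.natDegree (fun v T _ => ?_) fun T _ => ?_
  · obtain ⟨h1, h2, h3⟩ := T.mem
    letI : Algebra k T.L := ((algebraMap (v.adicCompletion (RatFunc k)) T.L).comp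
      (algebraMap k (v.adicCompletion (RatFunc k)))).toAlgebra
    haveI : IsScalarTower k (v.adicCompletion (RatFunc k)) T.L :=
      IsScalarTower.of_algebraMap_eq' rfl
    exact Pool.Agent.H89.FP.loc_hyp (L := T.L) (Pool.Agent.H89.FP.place_fin v) hℓ hA hB hd G hG hV
      (algebraMap (RatFunc k) _ (algebraMap k[X] (RatFunc k) u)) 0
      (Or.inl ⟨Pool.Agent.H89.FP.fin_poly v u, rfl⟩) T.P h1 h2 h3
  · obtain ⟨h1, h2, h3⟩ := T.mem
    letI := Pool.Agent.H89.FP.algInf k
    letI : Algebra k T.L := ((algebraMap (RatFunc.CompletionAtInfty k) T.L).comp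
      (algebraMap k (RatFunc.CompletionAtInfty k))).toAlgebra
    haveI : IsScalarTower k (RatFunc.CompletionAtInfty k) T.L :=
      IsScalarTower.of_algebraMap_eq' rfl
    have := Pool.Agent.H89.FP.loc_hyp (L := T.L) (Pool.Agent.H89.FP.place_inf k) hℓ hA hB hd G hG hV
      (algebraMap (RatFunc k) _ (algebraMap k[X] (RatFunc k) u)) u.natDegree
      (Or.inr (Pool.Agent.H89.FP.inf_poly k hu)) T.P h1 h2 h3
    rw [Nat.cast_one] at this
    exact this

theorem covering_invariant {ℓ N r e : ℕ} (hℓ : ℓ.Prime) (hr : ℓ ∣ r) (hr0 : r ≠ 0)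
    {G : Set (MvPolynomial (Fin N) k)} (hG : ∀ H ∈ G, ∃ e, H.IsHomogeneous e)
    {A B : MvPolynomial (Fin N) k} (hA : A.IsHomogeneous (r * e)) (hB : B.IsHomogeneous (r * e))
    {u : k[X]} (hu : u ≠ 0) (hV : BaseDivisible' ℓ r G A B) (z : Adelic (Covering r G A B u)) :
    z.invariant (MvPolynomial.rename some B) ℓ = (u.natDegree : ZMod ℓ) := by
  have hren : ∀ {L : Type} [Field L] (φ : RatFunc k →+* L) (P : Option (Fin N) → L),
      ev φ (MvPolynomial.rename some B) P = ev φ B (fun i => P (some i)) := by
    intro L _ φ P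
    unfold ev
    rw [MvPolynomial.eval₂_rename]
    rfl
  refine invariant_eq z _ ℓ u.natDegree (fun v T _ => ?_) fun T _ => ?_
  · obtain ⟨h1, h2, h3⟩ := T.mem
    rw [hren]
    letI : Algebra k T.L := ((algebraMap (v.adicCompletion (RatFunc k)) T.L).comp
      (algebraMap k (v.adicCompletion (RatFunc k)))).toAlgebra
    haveI : IsScalarTower k (v.adicCompletion (RatFunc k)) T.L :=
      IsScalarTower.of_algebraMap_eq' rfl
    exact Pool.Agent.H89.FP.loc_cyc (L := T.L) (Pool.Agent.H89.FP.place_fin v) hℓ hA hB hr hr0 G hG hV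
      (algebraMap (RatFunc k) _ (algebraMap k[X] (RatFunc k) u)) 0
      (Or.inl ⟨Pool.Agent.H89.FP.fin_poly v u, rfl⟩) (fun i => T.P (some i)) (T.P none) h1 h2 h3
  · obtain ⟨h1, h2, h3⟩ := T.mem
    rw [hren]
    letI := Pool.Agent.H89.FP.algInf k
    letI : Algebra k T.L := ((algebraMap (RatFunc.CompletionAtInfty k) T.L).comp
      (algebraMap k (RatFunc.CompletionAtInfty k))).toAlgebra
    haveI : IsScalarTower k (RatFunc.CompletionAtInfty k) T.L :=
      IsScalarTower.of_algebraMap_eq' rfl
    have := Pool.Agent.H89.FP.loc_cyc (L := T.L) (Pool.Agent.H89.FP.place_inf k) hℓ hA hB hr hr0 G hG hV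
      (algebraMap (RatFunc k) _ (algebraMap k[X] (RatFunc k) u)) u.natDegree
      (Or.inr (Pool.Agent.H89.FP.inf_poly k hu)) (fun i => T.P (some i)) (T.P none) h1 h2 h3
    rw [Nat.cast_one] at this
    exact this

theorem prime_cast_ne {ℓ d M : ℕ} (hℓ : ℓ.Prime) (hd : ℓ ∣ d) (hM : M.Coprime d) :
    (M : ZMod ℓ) ≠ 0 := by
  rw [Ne, ZMod.natCast_eq_zero_iff]
  intro h
  exact hℓ.one_lt.ne' (Nat.eq_one_of_dvd_coprimes hM h hd)

end proof

/-- **Theorem.** Let `k` be a finite field and `Y` a projective variety over `k`, defined by the set `G` of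
forms. Let `A, B` be forms over `k` and let `u` be a polynomial over `k`.

1. Let `A, B` be of degree `d ≥ 1`, the degree of `u` prime to `d`, and let `Y` contain a line over `k`. If
there is a family of zero-cycles of degree one over all the completions of `k(t)` on the section
`X : A + u B = 0` of `Y` such that for all primes `ℓ` which divide `d` and all the degrees of the closed points
of the base locus the sum of the local invariants of `(χ_ℓ, B)` is zero, then `X` has a zero-cycle of degree
one over `k(t)`. More precisely, for such an `ℓ` the sum of the local invariants is `deg u / ℓ` for all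
families of local zero-cycles of degree one.

2. The same for the cyclic covering `X : y ^ r = A + u B` of `Y`, if `A, B` are of degree `r e`, the degree of
`u` is prime to `r` and `Y` has a point over `k`. -/
theorem result (k : Type) [Field k] [Finite k] (N : ℕ) (G : Set (MvPolynomial (Fin N) k))
    (hG : ∀ H ∈ G, ∃ e, H.IsHomogeneous e) (A B : MvPolynomial (Fin N) k) (u : k[X]) :
    (∀ d : ℕ, d ≠ 0 → A.IsHomogeneous d → B.IsHomogeneous d → u.natDegree.Coprime d →
      (HasLine G → (∃ z : Adelic (Section G A B u), ∀ ℓ : ℕ, ℓ.Prime → ℓ ∣ d →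
        BaseDivisible ℓ G A B → z.invariant B ℓ = 0) → HasCycle (Section G A B u)) ∧
      (∀ ℓ : ℕ, ℓ.Prime → ℓ ∣ d → BaseDivisible ℓ G A B → ∀ z : Adelic (Section G A B u),
        z.invariant B ℓ = (u.natDegree : ZMod ℓ) ∧ (u.natDegree : ZMod ℓ) ≠ 0)) ∧
    (∀ r e : ℕ, r ≠ 0 → A.IsHomogeneous (r * e) → B.IsHomogeneous (r * e) →
      u.natDegree.Coprime r →
      (HasRationalPoint G → (∃ z : Adelic (Covering r G A B u), ∀ ℓ : ℕ, ℓ.Prime → ℓ ∣ r →
        BaseDivisible' ℓ r G A B → z.invariant (MvPolynomial.rename some B) ℓ = 0) →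
        HasCycle (Covering r G A B u)) ∧
      (∀ ℓ : ℕ, ℓ.Prime → ℓ ∣ r → BaseDivisible' ℓ r G A B →
        ∀ z : Adelic (Covering r G A B u),
        z.invariant (MvPolynomial.rename some B) ℓ = (u.natDegree : ZMod ℓ) ∧
          (u.natDegree : ZMod ℓ) ≠ 0)) := by
  have hu0 : ∀ {ℓ d : ℕ}, ℓ.Prime → ℓ ∣ d → u.natDegree.Coprime d → u ≠ 0 := by
    rintro ℓ d hℓ hd hco rfl
    exact prime_cast_ne hℓ hd hco (by simp)
  refine ⟨fun d hd0 hA hB hco => ⟨fun hL hz => ?_, fun ℓ hℓ hd hV z => ?_⟩,
    fun r e hr0 hA hB hco => ⟨fun hP hz => ?_, fun ℓ hℓ hr hV z => ?_⟩⟩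
  · obtain ⟨z, hz⟩ := hz
    refine hasCycle_of _ fun ℓ hℓ => ?_
    by_cases hd : ℓ ∣ d
    · refine const_section u fun hV => ?_
      have h1 := hz ℓ hℓ hd hV
      rw [section_invariant hℓ hd hG hA hB (hu0 hℓ hd hco) hV z] at h1
      exact prime_cast_ne hℓ hd hco h1
    · exact line_section hℓ hd hA hB u hL
  · exact ⟨section_invariant hℓ hd hG hA hB (hu0 hℓ hd hco) hV z, prime_cast_ne hℓ hd hco⟩
  · obtain ⟨z, hz⟩ := hz
    refine hasCycle_of _ fun ℓ hℓ => ?_
    by_cases hr : ℓ ∣ r
    · refine const_covering u fun hV => ?_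
      have h1 := hz ℓ hℓ hr hV
      rw [covering_invariant hℓ hr hr0 hG hA hB (hu0 hℓ hr hco) hV z] at h1
      exact prime_cast_ne hℓ hr hco h1
    · exact fibre_covering hr u hP
  · exact ⟨covering_invariant hℓ hr hr0 hG hA hB (hu0 hℓ hr hco) hV z, prime_cast_ne hℓ hr hco⟩

end Pool.Agent.Results.MP_1ad228_nt.PencilsOverFiniteFields
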