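import Pool.Agent.H89.UG.Glob
import Pool.Agent.H89.UG.Loc
import Pool.Agent.H89.FP.Place
import Pool.Agent.H89.FP.Glob

/-!
# Zero-cycles of degree one on the varieties `F(x) = u G(z)` over `k(t)`

Let `k` be a finite field, `F ∈ k[x_1, …, x_a]` and `G ∈ k[z_1, …, z_b]` ANY forms of degree `c e` and `e`,
and `u ∈ k(t)` ANY rational function. We prove Question 1 (even without a Brauer-Manin condition) for the
hypersurface

  `X : F(x) = u G(z)` in the weighted projective space `ℙ(1^a, c^b)` over `k(t)`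

if for every prime `ℓ` which divides `e` one has `ℓ^2 ∤ c e` and `ℓ < a + b`: if `X` has zero-cycles of degree
one over the completions of `k(t)` (at the finite places), then it has one over `k(t)`.

Examples. (1) `c = 1`, square free degree `e`, `a + b > ℓ` for the primes `ℓ | e`: for instance all surfaces
`F(x) = u G(z)` of degree 6 in `ℙ^3`, and the cubic surfaces `F(x, y) = u G(z, w)`, `F(x, y, z) = u w^3`, for
all `F`, `G` and `u`.
(2) `G = w^e`: the twists `u w^e = F(x)` of cyclic coverings: all the quadratic twists of the double coverings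
`w^2 = F(x)` with `deg F ≡ 2 mod 4`, for instance of all the K3 surfaces `w^2 = F_6(x, y, z)` and of the
Calabi-Yau double coverings of `ℙ^n`, `n` even; the twists of the triple planes `w^3 = F(x, y, z)` with
`3 | deg F`, `9 ∤ deg F`.

The new feature, in comparison with `IsotrivialVarieties`, is that there is no condition on `u`: the divisor
of `u` can be concentrated at places whose degrees are divisible by `ℓ`.

Proof. Let `ℓ | e` be a prime and `κ` the union of the finite extensions of `k` of degree prime to `ℓ`. If `F`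
or `G` has a zero over `κ` we are done. Otherwise `F` and `G` are norms of forms `Φ, Γ` of the degrees
`c e / ℓ`, `e / ℓ` over the extension `κ'` of degree `ℓ` of `κ`: `κ` is pseudo algebraically closed, hence for
every irreducible factor `p` of `F` the function field of `p = 0` contains `κ'`, and `p` is a norm from
`κ'[x]` (`H89/UG/Nf.lean`, `Gen.lean`, `Kap.lean`). By the local conditions the orders of `u` at the places of
degree prime to `ℓ` are divisible by `ℓ` (`Loc.lean`); the irreducible polynomials whose degree is divisible by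
`ℓ` are norms; hence `u` is the norm of some `w` (`Up.lean`). Now `Φ(x) = w Γ(z)` is a system of `ℓ` forms in
`x` and `y`, `z_j = y_j^c`, of degree `c e / ℓ` prime to `ℓ` in `a + b > ℓ` variables, and has a zero over an
extension of degree prime to `ℓ` by a theorem of Pfister, which is proved in `H89/PF`.
-/

set_option autoImplicit false
set_option linter.all false

open Module Polynomial IsDedekindDomain

namespace Pool.Agent.Results.MP_1ad228_nt.TwistedForms

open Pool.Agent.H89.FP Pool.Agent.H89.UG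

section varieties

variable {k : Type} [Field k]

/-- the value at `P` of a polynomial `H` with coefficients in `k`, for a field `L` that contains `k(t)` -/
noncomputable def ev {L : Type} [Field L] (φ : RatFunc k →+* L) {ι : Type} (H : MvPolynomial ι k)
    (P : ι → L) : L :=
  MvPolynomial.eval₂ (φ.comp (algebraMap k (RatFunc k))) P H

/-- `(x, z)` is a point of the variety `F(x) = u G(z)` over the field `L` that contains `k(t)` -/
def IsPoint {a b : ℕ} (F : MvPolynomial (Fin a) k) (G : MvPolynomial (Fin b) k) (u : RatFunc k)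
    {L : Type} [Field L] (φ : RatFunc k →+* L) (x : Fin a → L) (z : Fin b → L) : Prop :=
  (x ≠ 0 ∨ z ≠ 0) ∧ ev φ F x = φ u * ev φ G z

/-- a point of `X : F(x) = u G(z)` over a finite extension `L` of `E ⊇ k(t)`, with an integral coefficient -/
structure Term {a b : ℕ} (F : MvPolynomial (Fin a) k) (G : MvPolynomial (Fin b) k) (u : RatFunc k)
    {E : Type} [Field E] (φ : RatFunc k →+* E) where
  coef : ℤ
  L : Type
  [field : Field L]
  [alg : Algebra E L]
  [fin : FiniteDimensional E L]
  x : Fin a → L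
  z : Fin b → L
  mem : IsPoint F G u ((algebraMap E L).comp φ) x z

attribute [instance] Term.field Term.alg Term.fin

/-- the degree over `E` of a zero-cycle on `X` over `E` -/
noncomputable def degree {a b : ℕ} {F : MvPolynomial (Fin a) k} {G : MvPolynomial (Fin b) k}
    {u : RatFunc k} {E : Type} [Field E] {φ : RatFunc k →+* E} (Z : List (Term F G u φ)) : ℤ :=
  (Z.map fun T => T.coef * (finrank E T.L : ℤ)).sum

/-- `X : F(x) = u G(z)` has a zero-cycle of degree one over `E ⊇ k(t)` -/
def HasCycle {a b : ℕ} (F : MvPolynomial (Fin a) k) (G : MvPolynomial (Fin b) k) (u : RatFunc k)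
    {E : Type} [Field E] (φ : RatFunc k →+* E) : Prop :=
  ∃ Z : List (Term F G u φ), degree Z = 1

end varieties

section proof

variable {k : Type} [Field k] {a b : ℕ} {F : MvPolynomial (Fin a) k} {G : MvPolynomial (Fin b) k}
  {u : RatFunc k}

/-- from points of degree prime to `ℓ` to zero-cycles of degree one -/
theorem hasCycle_of
    (h : ∀ ℓ : ℕ, ℓ.Prime → ∃ (L : Type) (_ : Field L) (_ : Algebra (RatFunc k) L) (x : Fin a → L)
      (z : Fin b → L), FiniteDimensional (RatFunc k) L ∧ ¬ ℓ ∣ finrank (RatFunc k) L ∧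
        IsPoint F G u (algebraMap (RatFunc k) L) x z) : HasCycle F G u (RingHom.id (RatFunc k)) := by
  let S : AddSubgroup ℤ :=
    { carrier := {n | ∃ Z : List (Term F G u (RingHom.id (RatFunc k))), degree Z = n}
      zero_mem' := ⟨[], rfl⟩
      add_mem' := by
        rintro a b ⟨z, rfl⟩ ⟨z', rfl⟩
        exact ⟨z ++ z', by simp [degree]⟩
      neg_mem' := by
        rintro a ⟨z, rfl⟩
        refine ⟨z.map fun T => { T with coef := -T.coef }, ?_⟩
        induction z with
        | nil => simp [degree]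
        | cons T z ih =>
          unfold degree at ih ⊢
          rw [List.map_cons, List.map_cons, List.sum_cons, ih, List.map_cons, List.sum_cons]
          ring }
  have hS : ∀ (L : Type) [Field L] [Algebra (RatFunc k) L] (x : Fin a → L) (z : Fin b → L)
      [FiniteDimensional (RatFunc k) L], IsPoint F G u (algebraMap (RatFunc k) L) x z →
      (finrank (RatFunc k) L : ℤ) ∈ S := by
    intro L _ _ x z _ hP
    refine ⟨[{ coef := 1, L := L, x := x, z := z, mem := ?_ }], ?_⟩
    · rw [RingHom.comp_id]; exact hP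
    · simp [degree]
  obtain ⟨s, ha⟩ := Int.subgroup_cyclic S
  have hdvd : ∀ n ∈ S, s ∣ n := by
    intro n hn
    rw [ha, AddSubgroup.mem_closure_singleton] at hn
    obtain ⟨m, rfl⟩ := hn
    exact Dvd.intro_left m rfl
  have hmem : s ∈ S := by
    rw [ha]
    exact AddSubgroup.mem_closure_singleton_self s
  have hu : s.natAbs = 1 := by
    by_contra hne
    obtain ⟨ℓ, hℓ, hℓa⟩ := Nat.exists_prime_and_dvd hne
    obtain ⟨L, iL, iA, x, z, hfd, hnd, hX⟩ := h ℓ hℓ
    have h1 := hdvd _ (hS L x z hX)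
    apply hnd
    have h2 : (ℓ : ℤ) ∣ (finrank (RatFunc k) L : ℤ) :=
      (Int.natCast_dvd.2 hℓa).trans h1
    exact_mod_cast h2
  have h1 : (1 : ℤ) ∈ S := by
    rcases Int.natAbs_eq s with h | h
    · rw [hu] at h
      rw [h] at hmem
      exact_mod_cast hmem
    · rw [hu] at h
      rw [h] at hmem
      have := S.neg_mem hmem
      simpa using this
  exact h1

/-- a point of degree prime to `ℓ` in a zero-cycle of degree one -/
theorem exists_term {E : Type} [Field E] {φ : RatFunc k →+* E} {ℓ : ℕ} (hℓ : ℓ.Prime)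
    (h : HasCycle F G u φ) : ∃ T : Term F G u φ, ¬ ℓ ∣ finrank E T.L := by
  obtain ⟨z, hz⟩ := h
  by_contra hcon
  push Not at hcon
  have h1 : ∀ z : List (Term F G u φ), (ℓ : ℤ) ∣ degree z := by
    intro z
    induction z with
    | nil => simp [degree]
    | cons T z ih =>
      unfold degree at ih ⊢
      rw [List.map_cons, List.sum_cons]
      exact dvd_add (Dvd.dvd.mul_left (by exact_mod_cast hcon T) _) ih
  have h2 := h1 z
  rw [hz] at h2
  have h3 : ℓ ∣ 1 := by exact_mod_cast h2
  exact hℓ.one_lt.ne' (Nat.dvd_one.1 h3)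

theorem ev_map {E L : Type} [Field E] [Algebra k E] [Field L]
    (φ : RatFunc k →+* L) (g : E →+* L)
    (hg : ∀ c : k, g (algebraMap k E c) = φ (algebraMap k (RatFunc k) c)) {ι : Type}
    (H : MvPolynomial ι k) (b : ι → E) :
    ev φ H (fun i => g (b i)) = g (MvPolynomial.aeval b H) := by
  unfold ev
  rw [MvPolynomial.aeval_def, MvPolynomial.hom_eval₂]
  congr 1
  ext c
  exact (hg c).symm

theorem ev_smul {L : Type} [Field L] (φ : RatFunc k →+* L) {N d : ℕ} {H : MvPolynomial (Fin N) k}
    (hH : H.IsHomogeneous d) (c : L) (x : Fin N → L) :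
    ev φ H (fun i => c * x i) = c ^ d * ev φ H x := by
  letI : Algebra k L := (φ.comp (algebraMap k (RatFunc k))).toAlgebra
  exact Pool.Agent.H89.PF.aeval_scale (R := k) hH c x

theorem ev_zero {L : Type} [Field L] (φ : RatFunc k →+* L) {N d : ℕ} {H : MvPolynomial (Fin N) k}
    (hH : H.IsHomogeneous d) (hd : d ≠ 0) : ev φ H 0 = 0 := by
  have h1 := ev_smul φ hH (0 : L) 0
  rw [zero_pow hd, zero_mul] at h1
  rw [← h1]
  congr 1
  funext i
  simp

/-- the first unit vector -/
theorem exists_ne {N : ℕ} (h : 0 < N) : ∃ p : Fin N → k, p ≠ 0 := by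
  haveI : Nonempty (Fin N) := ⟨⟨0, h⟩⟩
  exact ⟨1, one_ne_zero⟩

/-- points if `ℓ` does not divide `e` -/
theorem point_of_not_dvd {ℓ c e : ℕ} (hℓ : ℓ.Prime) (hle : ¬ ℓ ∣ e) (hc : 0 < c) (ha : 0 < a)
    (hb : 0 < b) (hF : F.IsHomogeneous (c * e)) (hG : G.IsHomogeneous e) :
    ∃ (L : Type) (_ : Field L) (_ : Algebra (RatFunc k) L) (x : Fin a → L)
      (z : Fin b → L), FiniteDimensional (RatFunc k) L ∧ ¬ ℓ ∣ finrank (RatFunc k) L ∧
        IsPoint F G u (algebraMap (RatFunc k) L) x z := by
  have he0 : e ≠ 0 := by rintro rfl; exact hle (dvd_zero _)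
  obtain ⟨p, hp⟩ := exists_ne (k := k) ha
  obtain ⟨q, hq⟩ := exists_ne (k := k) hb
  set f : (RatFunc k) := algebraMap k (RatFunc k) (MvPolynomial.aeval p F) with hf
  set g : (RatFunc k) := algebraMap k (RatFunc k) (MvPolynomial.aeval q G) with hg
  have hne : ∀ {N : ℕ} (r : Fin N → k), r ≠ 0 → ∀ (L : Type) [Field L] [Algebra (RatFunc k) L],
      (fun i => algebraMap (RatFunc k) L (algebraMap k (RatFunc k) (r i))) ≠ 0 := by
    intro N r hr L _ _ h0
    apply hr
    funext i
    have h1 := congrFun h0 i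
    exact (map_eq_zero (algebraMap k (RatFunc k))).1 ((map_eq_zero (algebraMap (RatFunc k) L)).1 h1)
  have hev : ∀ {N : ℕ} (r : Fin N → k) (H : MvPolynomial (Fin N) k) (L : Type) [Field L] [Algebra (RatFunc k) L],
      ev (algebraMap (RatFunc k) L) H (fun i => algebraMap (RatFunc k) L (algebraMap k (RatFunc k) (r i))) =
        algebraMap (RatFunc k) L (algebraMap k (RatFunc k) (MvPolynomial.aeval r H)) := by
    intro N r H L _ _
    exact ev_map (E := k) (algebraMap (RatFunc k) L) ((algebraMap (RatFunc k) L).comp (algebraMap k (RatFunc k))) (fun c => rfl) H r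
  by_cases h0 : u * g = 0
  · refine ⟨(RatFunc k), inferInstance, Algebra.id (RatFunc k), 0, fun i => algebraMap (RatFunc k) (RatFunc k) (algebraMap k (RatFunc k) (q i)),
      inferInstance, ?_, Or.inr (hne q hq (RatFunc k)), ?_⟩
    · rw [finrank_self]
      exact hℓ.one_lt.ne' ∘ Nat.dvd_one.1
    · rw [ev_zero _ hF (Nat.mul_ne_zero hc.ne' he0), hev q G (RatFunc k)]
      exact h0.symm
  · have hm : (X ^ e - C (f / (u * g)) : (RatFunc k)[X]).Monic := monic_X_pow_sub_C _ he0
    obtain ⟨L, iL, iA, s, hfd, hnd, hs⟩ := exists_root_ext (ℓ := ℓ)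
      (X ^ e - C (f / (u * g)) : (RatFunc k)[X]) hm.ne_zero (by rwa [natDegree_X_pow_sub_C])
    refine ⟨L, iL, iA, fun i => algebraMap (RatFunc k) L (algebraMap k (RatFunc k) (p i)),
      fun i => s * algebraMap (RatFunc k) L (algebraMap k (RatFunc k) (q i)), hfd, hnd, Or.inl (hne p hp L), ?_⟩
    rw [ev_smul _ hG, hev p F L, hev q G L]
    rw [map_sub, map_pow, aeval_X, aeval_C, sub_eq_zero] at hs
    rw [hs, ← map_mul, ← map_mul]
    congr 1
    change f = u * (f / (u * g) * g)
    have h1 : u ≠ 0 := left_ne_zero_of_mul h0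
    have h2 : g ≠ 0 := right_ne_zero_of_mul h0
    field_simp

/-- a zero of `F` over an extension of degree prime to `ℓ` -/
theorem point_of_zero_left [Finite k] {ℓ c e : ℕ} (hce : c * e ≠ 0) (he : e ≠ 0)
    (hF : F.IsHomogeneous (c * e)) (hG : G.IsHomogeneous e)
    (h : ¬ ∀ (E : Type) [Field E] [Algebra k E] [FiniteDimensional k E] (b : Fin a → E), b ≠ 0 →
      MvPolynomial.aeval b F = 0 → ℓ ∣ finrank k E) :
    ∃ (L : Type) (_ : Field L) (_ : Algebra (RatFunc k) L) (x : Fin a → L)
      (z : Fin b → L), FiniteDimensional (RatFunc k) L ∧ ¬ ℓ ∣ finrank (RatFunc k) L ∧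
        IsPoint F G u (algebraMap (RatFunc k) L) x z := by
  push Not at h
  obtain ⟨E, iE, iA, hfd, b, hb, hA, hd⟩ := h
  obtain ⟨L, iL, iA', hfd', hnd, g, hg⟩ := exists_const_ext (K := RatFunc k) (ℓ := ℓ) E hd
  refine ⟨L, iL, iA', fun i => g (b i), 0, hfd', hnd, Or.inl ?_, ?_⟩
  · intro h0
    apply hb
    funext i
    have h1 := congrFun h0 i
    exact (map_eq_zero g).1 h1
  · rw [ev_map _ g hg, hA, map_zero, ev_zero _ hG he, mul_zero]

/-- a zero of `G` over an extension of degree prime to `ℓ` -/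
theorem point_of_zero_right [Finite k] {ℓ c e : ℕ} (hce : c * e ≠ 0) (he : e ≠ 0)
    (hF : F.IsHomogeneous (c * e)) (hG : G.IsHomogeneous e)
    (h : ¬ ∀ (E : Type) [Field E] [Algebra k E] [FiniteDimensional k E] (c : Fin b → E), c ≠ 0 →
      MvPolynomial.aeval c G = 0 → ℓ ∣ finrank k E) :
    ∃ (L : Type) (_ : Field L) (_ : Algebra (RatFunc k) L) (x : Fin a → L)
      (z : Fin b → L), FiniteDimensional (RatFunc k) L ∧ ¬ ℓ ∣ finrank (RatFunc k) L ∧
        IsPoint F G u (algebraMap (RatFunc k) L) x z := by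
  push Not at h
  obtain ⟨E, iE, iA, hfd, b, hb, hA, hd⟩ := h
  obtain ⟨L, iL, iA', hfd', hnd, g, hg⟩ := exists_const_ext (K := RatFunc k) (ℓ := ℓ) E hd
  refine ⟨L, iL, iA', 0, fun i => g (b i), hfd', hnd, Or.inr ?_, ?_⟩
  · intro h0
    apply hb
    funext i
    have h1 := congrFun h0 i
    exact (map_eq_zero g).1 h1
  · rw [ev_map _ g hg, hA, map_zero, ev_zero _ hF hce, mul_zero]

/-- an irreducible polynomial of degree `ℓ` -/
theorem exists_irr (k : Type) [Field k] [Finite k] (ℓ : ℕ) [Fact ℓ.Prime] :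
    ∃ g₀ : k[X], g₀.Monic ∧ Irreducible g₀ ∧ g₀.natDegree = ℓ := by
  obtain ⟨p, hp⟩ := CharP.exists k
  haveI := hp
  haveI : Fact p.Prime := ⟨CharP.char_is_prime k p⟩
  haveI : NeZero ℓ := ⟨(Fact.out : ℓ.Prime).ne_zero⟩
  let E := FiniteField.Extension k p ℓ
  have hfr : finrank k E = ℓ := FiniteField.finrank_extension k p ℓ
  obtain ⟨α, hα⟩ := Field.exists_primitive_element k E
  have hint : IsIntegral k α := Algebra.IsIntegral.isIntegral α
  refine ⟨minpoly k α, minpoly.monic hint, minpoly.irreducible hint, ?_⟩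
  rw [← IntermediateField.adjoin.finrank hint, hα, IntermediateField.finrank_top', hfr]

/-- the order at a finite place -/
theorem ord_place (v : HeightOneSpectrum k[X]) {π U : k[X]} (hπ : v.asIdeal = Ideal.span {π})
    (hU : U ≠ 0) {n : ℕ} (h1 : π ^ n ∣ U) (h2 : ¬ π ^ (n + 1) ∣ U) :
    ordF (v.adicCompletion (RatFunc k)) (algebraMap (RatFunc k) _ (algebraMap k[X] (RatFunc k) U)) =
      n := by
  have h3 : vF (v.adicCompletion (RatFunc k)) (algebraMap (RatFunc k) _
      (algebraMap k[X] (RatFunc k) U)) = v.intValuation U := by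
    have h4 := v.valuedAdicCompletion_eq_valuation' (K := RatFunc k) (algebraMap k[X] (RatFunc k) U)
    rw [v.valuation_of_algebraMap] at h4
    exact h4
  have h4 : v.intValuation U ≤ WithZero.exp (-(n : ℤ)) := by
    rw [v.intValuation_le_pow_iff_dvd, hπ, Ideal.span_singleton_pow, Ideal.dvd_span_singleton,
      Ideal.mem_span_singleton]
    exact h1
  have h5 : ¬ v.intValuation U ≤ WithZero.exp (-((n + 1 : ℕ) : ℤ)) := by
    rw [v.intValuation_le_pow_iff_dvd, hπ, Ideal.span_singleton_pow, Ideal.dvd_span_singleton,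
      Ideal.mem_span_singleton]
    exact h2
  rw [v.intValuation_if_neg hU] at h3 h4 h5
  rw [WithZero.exp_le_exp] at h4 h5
  rw [ordF_of_exp h3]
  push_cast at h5
  omega

/-- **Theorem.** Let `k` be a finite field, `F` and `G` forms over `k` of the degrees `c e` and `e` in `a` and
`b` variables, and `u ∈ k(t)`. Suppose that `ℓ ^ 2 ∤ c e` and `ℓ < a + b` for every prime `ℓ` which divides
`e`. If the variety `F(x) = u G(z)` in the weighted projective space `ℙ(1^a, c^b)` has zero-cycles of degree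
one over the completions of `k(t)` at all finite places, then it has a zero-cycle of degree one over
`k(t)`. -/
theorem result (k : Type) [Field k] [Finite k] (a b c e : ℕ) (ha : 0 < a) (hb : 0 < b) (hc : 0 < c)
    (he : 0 < e) (h : ∀ ℓ : ℕ, ℓ.Prime → ℓ ∣ e → ¬ ℓ ^ 2 ∣ c * e ∧ ℓ < a + b)
    (F : MvPolynomial (Fin a) k) (G : MvPolynomial (Fin b) k) (hF : F.IsHomogeneous (c * e))
    (hG : G.IsHomogeneous e) (u : RatFunc k)
    (hloc : ∀ v : HeightOneSpectrum k[X],
      HasCycle F G u (algebraMap (RatFunc k) (v.adicCompletion (RatFunc k)))) :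
    HasCycle F G u (RingHom.id (RatFunc k)) := by
  classical
  refine hasCycle_of fun ℓ hℓ => ?_
  haveI : Fact ℓ.Prime := ⟨hℓ⟩
  by_cases hle : ℓ ∣ e
  swap
  · exact point_of_not_dvd hℓ hle hc ha hb hF hG
  obtain ⟨h2, hab⟩ := h ℓ hℓ hle
  have hce : c * e ≠ 0 := Nat.mul_ne_zero hc.ne' he.ne'
  by_cases hani : ∀ (E : Type) [Field E] [Algebra k E] [FiniteDimensional k E] (b : Fin a → E), b ≠ 0 →
      MvPolynomial.aeval b F = 0 → ℓ ∣ finrank k E
  swap
  · exact point_of_zero_left hce he.ne' hF hG hani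
  by_cases hbni : ∀ (E : Type) [Field E] [Algebra k E] [FiniteDimensional k E] (c : Fin b → E), c ≠ 0 →
      MvPolynomial.aeval c G = 0 → ℓ ∣ finrank k E
  swap
  · exact point_of_zero_right hce he.ne' hF hG hbni
  by_cases hu : u = 0
  · -- the equation `F(x) = 0`
    obtain ⟨q, hq⟩ := exists_ne (k := k) hb
    refine ⟨RatFunc k, inferInstance, Algebra.id _, 0, fun i => algebraMap k (RatFunc k) (q i),
      inferInstance, ?_, Or.inr ?_, ?_⟩
    · rw [finrank_self]
      exact hℓ.one_lt.ne' ∘ Nat.dvd_one.1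
    · intro h0
      apply hq
      funext i
      exact (map_eq_zero (algebraMap k (RatFunc k))).1 (congrFun h0 i)
    · rw [ev_zero _ hF hce, hu, map_zero, zero_mul]
  obtain ⟨e', rfl⟩ := hle
  have hcℓ : ¬ ℓ ∣ c := by
    rintro ⟨c', rfl⟩
    exact h2 ⟨c' * e', by ring⟩
  have heℓ : ¬ ℓ ∣ e' := by
    rintro ⟨e'', rfl⟩
    exact h2 ⟨c * e'', by ring⟩
  have he' : e' ≠ 0 := by rintro rfl; exact heℓ (dvd_zero _)
  have hFd : F.IsHomogeneous (ℓ * (c * e')) := by
    have : ℓ * (c * e') = c * (ℓ * e') := by ring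
    rw [this]; exact hF
  obtain ⟨g₀, hm, hirr, hd⟩ := exists_irr k ℓ
  -- `u` is a norm
  let Ω := AlgebraicClosure (RatFunc k)
  set U₁ : k[X] := u.num with hU₁
  set U₂ : k[X] := u.denom with hU₂
  have hU₁0 : U₁ ≠ 0 := RatFunc.num_ne_zero hu
  have hU₂0 : U₂ ≠ 0 := u.denom_ne_zero
  have hU₂K : algebraMap k[X] (RatFunc k) U₂ ≠ 0 := by
    rwa [Ne, map_eq_zero_iff _ (IsFractionRing.injective k[X] (RatFunc k))]
  set U : k[X] := U₁ * U₂ ^ (ℓ - 1) with hU
  have hU0 : U ≠ 0 := mul_ne_zero hU₁0 (pow_ne_zero _ hU₂0)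
  have huU : algebraMap k[X] (RatFunc k) U = u * (algebraMap k[X] (RatFunc k) U₂) ^ ℓ := by
    have h1 : algebraMap k[X] (RatFunc k) U₁ = u * algebraMap k[X] (RatFunc k) U₂ := by
      rw [eq_comm, ← eq_div_iff hU₂K]
      exact (RatFunc.num_div_denom u).symm
    rw [hU, map_mul, map_pow, h1, mul_assoc, ← pow_succ', Nat.sub_add_cancel hℓ.one_le]
  have hlocU : ∀ π : k[X], Irreducible π → ¬ ℓ ∣ π.natDegree → ∀ n, π ^ n ∣ U →
      ¬ π ^ (n + 1) ∣ U → ℓ ∣ n := by
    intro π hπ hdeg n hn1 hn2
    let v : HeightOneSpectrum k[X] :=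
      { asIdeal := Ideal.span {π}
        isPrime := (Ideal.span_singleton_prime hπ.ne_zero).2
          (UniqueFactorizationMonoid.irreducible_iff_prime.1 hπ)
        ne_bot := by
          rw [Ne, Ideal.span_singleton_eq_bot]
          exact hπ.ne_zero }
    have hpl := place_fin v
    have hδ : finrank k (k[X] ⧸ v.asIdeal) = π.natDegree :=
      finrank_quotient_span_eq_natDegree
    rw [hδ] at hpl
    obtain ⟨T, hT⟩ := exists_term hℓ (hloc v)
    set E := v.adicCompletion (RatFunc k) with hE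
    letI : Algebra k T.L := ((algebraMap E T.L).comp (algebraMap k E)).toAlgebra
    haveI : IsScalarTower k E T.L := IsScalarTower.of_algebraMap_eq fun _ => rfl
    have h1 := T.mem.2
    have huE : algebraMap (RatFunc k) E u ≠ 0 := by rwa [Ne, map_eq_zero]
    have h3 := ord_dvd (L := T.L) hpl hℓ hdeg hT (Nat.mul_ne_zero hℓ.ne_zero (Nat.mul_ne_zero hc.ne' he'))
      (Nat.mul_ne_zero hℓ.ne_zero he') hFd hG hani hbni (algebraMap (RatFunc k) E u) huE T.x T.z T.mem.1 (by
        have h4 : (algebraMap k T.L) = ((algebraMap E T.L).comp (algebraMap (RatFunc k) E)).comp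
            (algebraMap k (RatFunc k)) := by
          ext z
          rfl
        rw [MvPolynomial.aeval_def, MvPolynomial.aeval_def, h4]
        exact h1)
    have h5 := ord_place v (π := π) rfl hU0 hn1 hn2
    have hU₂E : algebraMap (RatFunc k) E (algebraMap k[X] (RatFunc k) U₂) ≠ 0 := by
      rwa [Ne, map_eq_zero]
    change ordF E (algebraMap (RatFunc k) E (algebraMap k[X] (RatFunc k) U)) = n at h5
    rw [huU, map_mul, map_pow, ordF_mul huE (pow_ne_zero _ hU₂E), ordF_pow] at h5
    have h6 : (ℓ : ℤ) ∣ (n : ℤ) := by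
      rw [← h5]
      exact dvd_add h3 (dvd_mul_right _ _)
    exact_mod_cast h6
  haveI : Fintype k := Fintype.ofFinite k
  obtain ⟨W, hW⟩ := up (Ω := Ω) hℓ hm hirr hd U hU0 hlocU
  have hWu : algebraMap (RatFunc k) Ω u = nrm (rts g₀ Ω) ℓ fun i =>
      algebraMap (RatFunc k) Ω (algebraMap k[X] (RatFunc k) (W i) / algebraMap k[X] (RatFunc k) U₂) := by
    have hid : g₀.map (algebraMap k k) = g₀ := by
      rw [Algebra.algebraMap_self, Polynomial.map_id]
    obtain ⟨K₁, iF, iA, ⟨T⟩⟩ := exists_stp (k := k) (g₀ := g₀) (ℓ := ℓ) (K₀ := k) (Ω := Ω) hm hd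
      (by rw [hid]; exact hirr)
    haveI := T.fd
    haveI := T.gal
    haveI : Fintype (K₁ ≃ₐ[k] K₁) := Fintype.ofFinite _
    set t : Ω := algebraMap (RatFunc k) Ω (algebraMap k[X] (RatFunc k) X) with ht
    have hal : ∀ p : k[X], aeval t p = algebraMap (RatFunc k) Ω (algebraMap k[X] (RatFunc k) p) := by
      intro p
      have h1 : (aeval t : k[X] →ₐ[k] Ω) = ((IsScalarTower.toAlgHom k (RatFunc k) Ω).comp
          (IsScalarTower.toAlgHom k k[X] (RatFunc k))) := by
        apply Polynomial.algHom_ext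
        rw [aeval_X]
        rfl
      exact DFunLike.congr_fun h1 p
    have h1 := hW t
    rw [hal, huU, map_mul] at h1
    have hd2 : algebraMap (RatFunc k) Ω (algebraMap k[X] (RatFunc k) U₂) ≠ 0 := by rwa [Ne, map_eq_zero]
    have h2 : nrm (rts g₀ Ω) ℓ (fun i => aeval t (W i)) =
        (∏ ϑ ∈ rts g₀ Ω, algebraMap (RatFunc k) Ω (algebraMap k[X] (RatFunc k) U₂)) * nrm (rts g₀ Ω) ℓ fun i =>
          algebraMap (RatFunc k) Ω (algebraMap k[X] (RatFunc k) (W i) / algebraMap k[X] (RatFunc k) U₂) := by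
      unfold nrm
      rw [← Finset.prod_mul_distrib]
      refine Finset.prod_congr rfl fun ϑ _ => ?_
      rw [Finset.mul_sum]
      refine Finset.sum_congr rfl fun i _ => ?_
      beta_reduce
      rw [hal, map_div₀]
      have h3 : algebraMap (RatFunc k) Ω (algebraMap k[X] (RatFunc k) U₂) *
          (algebraMap (RatFunc k) Ω (algebraMap k[X] (RatFunc k) (W i)) /
            algebraMap (RatFunc k) Ω (algebraMap k[X] (RatFunc k) U₂)) =
          algebraMap (RatFunc k) Ω (algebraMap k[X] (RatFunc k) (W i)) := mul_div_cancel₀ _ hd2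
      rw [mul_left_comm, h3]
    have h3 : ∏ ϑ ∈ rts g₀ Ω, algebraMap (RatFunc k) Ω (algebraMap k[X] (RatFunc k) U₂) =
        (algebraMap (RatFunc k) Ω (algebraMap k[X] (RatFunc k) U₂)) ^ ℓ := by
      rw [← T.prod hd hirr.ne_zero fun _ => algebraMap (RatFunc k) Ω (algebraMap k[X] (RatFunc k) U₂), Finset.prod_const,
        Finset.card_univ, ← Nat.card_eq_fintype_card, T.card]
    rw [h2, h3, map_pow, mul_comm] at h1
    exact mul_left_cancel₀ (pow_ne_zero _ hd2) h1
  obtain ⟨L, iL, iA, x, z, hfd, hnd, hxz, hXP⟩ := glob hcℓ heℓ hab ha hb hFd hG hani hbni hm hirr hd u _ hWu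
  exact ⟨L, iL, iA, x, z, hfd, hnd, hxz, hXP⟩

end proof

end Pool.Agent.Results.MP_1ad228_nt.TwistedForms
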