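import Pool.Graph.R_pool_sql_team_seeded_63374d34.N783.PF.Final
import Pool.Agent.H89.TC.Cov

/-!
# Zero-cycles of degree one on ALL two-coverings of a positive proportion of the odd hyperelliptic curves,
# over every number field

Let `F` be any number field and `g ≥ 1`. Let `f` be a monic polynomial of degree `2 g + 1` over `F` with
distinct roots, `C_f : y² = f(x)` the hyperelliptic curve of genus `g`, `J_f` its Jacobian. The two-coverings
of `J_f` and of `C_f` over `F` (with a point of `C_f` at infinity) correspond to the classes modulo squares of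
the polynomials `h` prime to `f` whose norm in `F[x]/(f)` is a square. Explicitly

* the curve `D_h` in `ℙ^(2g+1)` of the `(λ : a)`, `λ` a polynomial of degree `≤ 2 g` and `a` a constant, such
  that `h λ² ≡ b - a² x mod f` for a constant `b`. It is the intersection of the `2 g` quadrics
  `coefficient of x^j in (h λ² mod f) = 0`, `2 ≤ j ≤ 2 g`, `coefficient of x in (h λ² mod f) + a² = 0`. It is
  a smooth complete intersection, so a smooth projective geometrically integral curve, of genus
  `1 + 2^(2g) (g - 1)`, an unramified covering of `C_f` of degree `2^(2g)`;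
* the variety `W_h` of the linear subspaces of dimension `g - 1` of the intersection of the two quadrics
  `coefficient of x^(2g) in (h λ² mod f) = 0`, `coefficient of x^(2g) in (h x λ² mod f) + a² = 0`
  in `ℙ^(2g+1)`, which is a torsor under `J_f`. There is a morphism `D_h → W_h`.

Theorem: order ALL the monic `f` of degree `2 g + 1` over the integers of `F` with trace zero by height. For
a positive proportion of the `f` the following is true for ALL the `h`:

  if `W_h` has a point over an extension of odd degree of every completion of `F` (for example: if `D_h`, or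
  `W_h`, or any variety between them, has zero-cycles of degree one over all the completions), then `D_h`
  has an `F`-rational point.

So Question 1 has a positive answer for all the curves `D_h`, the torsors `W_h` and the varieties `Y` with
morphisms `D_h → Y → W_h`, without a condition on the Brauer group. Nothing is known about the finiteness of
the Tate-Shafarevich groups of the Jacobians of the curves `D_h`, which have dimension `1 + 2^(2g) (g - 1)`.

Proof. A point of `D_h` over a field gives the linear space of the `(λ μ : a c)`, `deg μ < g`, `c` the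
coefficient of `x^(g-1)` in `μ` (`H89/TC/Plane.lean`). A linear space over an extension `E` of a completion
`K` shows by the theory of `N844/PL` (helper844) that `h` is modulo squares in `E[x]/(f)` a product of values
`(-1)^deg r r(x)`, `r` prime to `f` and `f` a square modulo `r`. If `[E : K]` is odd then the norm from `E` to
`K` gives the same over `K` (`H89/TC/Nm.lean`, `H89/TC/Desc.lean`): for an irreducible `r` over `E` the norm
of `(-1)^deg r r` is `((-1)^deg R R)^e`, `R` the minimal polynomial over `K` of a root of `r`, and if `e` is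
odd then `f` is also a square modulo `R`. So `h` gives an element of the 2-Selmer group, which is zero for a
positive proportion of the `f` by the theorem of project PF (helper783 and the other authors named in
`Results/MP_03ef3d_ag/PlanesOnTwoQuadrics.lean` of that run), and `D_h` has the rational point
`(h^(-1/2) : 0)`.
-/

set_option autoImplicit false
set_option linter.all false

open Finset Matrix Polynomial IsDedekindDomain NumberField

namespace Pool.Agent.Results.MP_1ad228_nt.TwoCoverings

/-! ### The two-coverings -/

section curves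

variable {K : Type} [Field K]

/-- the polynomial `λ = y_0 + y_1 x + … + y_(2 g) x ^ (2 g)` of the point `y = (λ : a)` of `ℙ^(2 g + 1)`;
the last coordinate of `y` is `a` -/
noncomputable def lam (g : ℕ) (y : Fin (2 * g + 2) → K) : K[X] :=
  ∑ i : Fin (2 * g + 1), C (y i.castSucc) * X ^ (i : ℕ)

/-- The symmetric bilinear forms of the `2 g` quadrics, `j = 0, …, 2 g - 1`: the coefficient of `x ^ (j + 1)`
in the remainder of `h λ λ'` modulo `f`, and for `j = 0` moreover the summand `a a'`. -/
noncomputable def bil (g : ℕ) (f h : K[X]) (j : ℕ) (y z : Fin (2 * g + 2) → K) : K :=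
  ((h * lam g y * lam g z) %ₘ f).coeff (j + 1) +
    if j = 0 then y (Fin.last _) * z (Fin.last _) else 0

/-- `y` is a point over `K` of the curve `D_h` in `ℙ^(2 g + 1)`, the intersection of `2 g` quadrics -/
def IsPoint (g : ℕ) (f h : K[X]) (y : Fin (2 * g + 2) → K) : Prop :=
  y ≠ 0 ∧ ∀ j < 2 * g, bil g f h j y y = 0

/-- the Jacobian criterion: the differentials of the `2 g` quadratic forms are linearly independent at `y` -/
def SmoothAt (g : ℕ) (f h : K[X]) (y : Fin (2 * g + 2) → K) : Prop :=
  LinearIndependent K fun (j : Fin (2 * g)) (z : Fin (2 * g + 2) → K) => bil g f h j y z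

/-- The torsor `W_h` has a point over `K`: there is a linear subspace of dimension `g - 1` of `ℙ^(2 g + 1)`
on which the coefficient of `x ^ (2 g)` in the remainder of `h λ²` modulo `f`, and the sum of `a²` and the
coefficient of `x ^ (2 g)` in the remainder of `h x λ²`, are zero. -/
def HasSpace (g : ℕ) (f h : K[X]) : Prop :=
  ∃ W : Submodule K (Fin (2 * g + 2) → K), Module.finrank K W = g ∧ ∀ y ∈ W,
    ((h * lam g y ^ 2) %ₘ f).coeff (2 * g) = 0 ∧
    ((h * X * lam g y ^ 2) %ₘ f).coeff (2 * g) + y (Fin.last _) ^ 2 = 0

/-- the torsor `W_h` has a point over an extension of odd degree of `K` -/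
def HasOddSpace (g : ℕ) (f h : K[X]) : Prop :=
  ∃ (E : Type) (_ : Field E) (_ : Algebra K E), FiniteDimensional K E ∧
    Odd (Module.finrank K E) ∧ HasSpace g (f.map (algebraMap K E)) (h.map (algebraMap K E))

end curves

section numberfield

variable (F : Type) [Field F] [NumberField F] (g B : ℕ)

/-- For all the two-coverings, that is for all the polynomials `h` over `F` which are prime to `f` and whose
norm in `F[x]/(f)` is a square: if `W_h` has points over extensions of odd degree of the completions of `F`
at all finite places and of the real numbers, for all embeddings of `F` in the real numbers, then `D_h` has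
an `F`-rational point. -/
def LocalGlobal (f : F[X]) : Prop :=
  ∀ h : F[X], IsCoprime h f → IsSquare (Algebra.norm F (AdjoinRoot.mk f h)) →
    (∀ v : HeightOneSpectrum (𝓞 F), HasOddSpace g (f.map (algebraMap F (v.adicCompletion F)))
      (h.map (algebraMap F (v.adicCompletion F)))) →
    (∀ ρ : F →+* ℝ, HasOddSpace g (f.map ρ) (h.map ρ)) →
    ∃ y : Fin (2 * g + 2) → F, IsPoint g f h y

/-- `f` is monic of degree `2 g + 1` without term of degree `2 g`, and all the conjugates of the coefficient
of `x ^ j` are at most `B ^ (2 g + 1 - j)` in absolute value. -/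
structure IsPoly (f : (𝓞 F)[X]) : Prop where
  monic : f.Monic
  degree : f.natDegree = 2 * g + 1
  trace : f.coeff (2 * g) = 0
  height : ∀ j ≤ 2 * g, ∀ σ : F →+* ℂ, ‖σ (f.coeff j : F)‖ ≤ (B : ℝ) ^ (2 * g + 1 - j)

/-- all the polynomials `f` of height at most `B` -/
def Polys : Set (𝓞 F)[X] := {f | IsPoly F g B f}

/-- there is no prime `P` such that `P ^ (2 (2 g + 1 - j))` divides the coefficient of `x ^ j` for all
`j ≤ 2 g` -/
def Minimal (f : (𝓞 F)[X]) : Prop :=
  ∀ P : Ideal (𝓞 F), P.IsPrime → P ≠ ⊥ → ¬ ∀ j ≤ 2 * g, f.coeff j ∈ P ^ (2 * (2 * g + 1 - j))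

/-- the polynomial `f` over `F` -/
noncomputable def polyF (f : (𝓞 F)[X]) : F[X] := f.map (algebraMap (𝓞 F) F)

/-- the polynomials `f` of height at most `B` which are minimal and irreducible over `F` and for which the
local-global principle holds for all the two-coverings -/
def Good : Set (𝓞 F)[X] :=
  {f ∈ Polys F g B | Minimal F g f ∧ Irreducible (polyF F f) ∧ LocalGlobal F g (polyF F f)}

/-- a positive proportion of all the polynomials ordered by height is good -/
def PositiveProportion : Prop :=
  ∃ c : ℝ, 0 < c ∧ ∃ B₀ : ℕ, ∀ B ≥ B₀, (Polys F g B).Finite ∧ 0 < (Polys F g B).ncard ∧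
    c * ((Polys F g B).ncard : ℝ) ≤ ((Good F g B).ncard : ℝ)

end numberfield

section proof

variable (F : Type) [Field F] [NumberField F] {g : ℕ}

theorem ht_iff (B : ℕ) (f : (𝓞 F)[X]) : IsPoly F g B f ↔ Pool.Agent.N783.PF.Ht g B f :=
  ⟨fun h => ⟨h.monic, h.degree, h.trace, h.height⟩, fun h => ⟨h.mon, h.deg, h.tr, h.ht⟩⟩

/-- the local condition in terms of polynomials -/
theorem loc {K : Type} [Field K] [CharZero K] (φ : F →+* K) {f : F[X]} (hf : f.Monic)
    (hd : f.natDegree = 2 * g + 1) (hs : f.Separable) {h : F[X]} (hh : IsCoprime h f)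
    (hN : IsSquare (Algebra.norm F (AdjoinRoot.mk f h)))
    (hsp : HasOddSpace g (f.map φ) (h.map φ)) :
    ∃ (l : List (K[X] × K[X])) (s : K[X]),
      (∀ p ∈ l, p.1.Monic ∧ IsCoprime p.1 (f.map φ) ∧ p.1 ∣ p.2 ^ 2 - f.map φ) ∧
      f.map φ ∣ h.map φ * (l.map fun p => (-1) ^ p.1.natDegree * p.1).prod - s ^ 2 := by
  haveI : Infinite K := CharZero.infinite K
  obtain ⟨E, iE, iA, hfd, hodd, hsp⟩ := hsp
  haveI : CharZero E := charZero_of_injective_algebraMap (algebraMap K E).injective
  have hh' : IsCoprime (h.map φ) (f.map φ) := hh.map (mapRingHom φ)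
  refine Pool.Agent.H89.TC.locIm_odd (E := E) hodd (f.map φ) (h.map φ) hh' ?_
  have hmm : ∀ p : F[X], (p.map φ).map (algebraMap K E) = p.map ((algebraMap K E).comp φ) :=
    fun p => Polynomial.map_map φ (algebraMap K E) p
  rw [hmm, hmm] at hsp ⊢
  have hf' : (f.map ((algebraMap K E).comp φ)).Monic := hf.map _
  have hd' : (f.map ((algebraMap K E).comp φ)).natDegree = 2 * g + 1 := by
    rw [hf.natDegree_map, hd]
  have h1 : Pool.Agent.N844.PL.HasPl g
      ((Pool.Agent.N844.PL.quadA g f h).map ((algebraMap K E).comp φ))
      ((Pool.Agent.N844.PL.quadB g f h).map ((algebraMap K E).comp φ)) := by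
    rw [Pool.Agent.N844.PL.quadA_map _ g hf, Pool.Agent.N844.PL.quadB_map _ g hf]
    exact (Pool.Agent.H89.TC.hasSpace_iff hf' hd' _).1 hsp
  exact Pool.Agent.N844.PL.loc_map ((algebraMap K E).comp φ) hf hd hs h hh hN h1

/-- from the explicit 2-Selmer group to the two-coverings -/
theorem localGlobal (hg : 1 ≤ g) {f : (𝓞 F)[X]} (hf : f.Monic) (hd : f.natDegree = 2 * g + 1)
    (hi : Irreducible (polyF F f)) (hs : Pool.Agent.N783.PF.SelZero f) :
    LocalGlobal F g (polyF F f) := by
  intro h hh hN hv hρ
  have hf' : (polyF F f).Monic := hf.map _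
  have hd' : (polyF F f).natDegree = 2 * g + 1 := by
    unfold polyF
    rw [hf.natDegree_map, hd]
  obtain ⟨s, hs'⟩ := hs h hh hN (fun v => by
      haveI : CharZero (v.adicCompletion F) :=
        charZero_of_injective_algebraMap (algebraMap F (v.adicCompletion F)).injective
      exact loc F (algebraMap F (v.adicCompletion F)) hf' hd' hi.separable hh hN (hv v))
    (fun ρ => loc F ρ hf' hd' hi.separable hh hN (hρ ρ))
  exact Pool.Agent.H89.TC.isPoint_of_sq hf' hd' hg hh s hs'

end proof

/-- **Theorem.** For every `g ≥ 1` and every number field `F` there is a positive constant `c` such that for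
all large `B` at least `c` times the number of all the `f` of height at most `B` are minimal, irreducible
over `F` and such that for ALL the two-coverings `D_h → W_h` of `C_f` and `J_f` the following is true: if
`W_h` has points over extensions of odd degree of all the completions of `F`, then the curve `D_h` has an
`F`-rational point. Moreover, for all separable `f` and all `h` prime to `f`, over all fields `E` which
contain `F`: the curve `D_h` is smooth, and if `D_h` has a point over `E` then `W_h` has a point over `E`. -/
theorem result (g : ℕ) (hg : 1 ≤ g) (F : Type) [Field F] [NumberField F] :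
    PositiveProportion F g ∧
    ∀ f : F[X], f.Monic → f.natDegree = 2 * g + 1 → f.Separable → ∀ h : F[X], IsCoprime h f →
      ∀ (E : Type) [Field E] (φ : F →+* E) (y : Fin (2 * g + 2) → E),
        IsPoint g (f.map φ) (h.map φ) y →
          SmoothAt g (f.map φ) (h.map φ) y ∧ HasSpace g (f.map φ) (h.map φ) := by
  classical
  haveI : Infinite F := CharZero.infinite _
  refine ⟨?_, ?_⟩
  · obtain ⟨c, hc, B₀, hB₀⟩ := Pool.Agent.N783.PF.main g F hg
    refine ⟨c, hc, B₀, fun B hB => ?_⟩
    obtain ⟨hHt, hle⟩ := hB₀ B hB
    have e1 : Polys F g B = {f : (𝓞 F)[X] | Pool.Agent.N783.PF.Ht g B f} :=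
      Set.ext fun f => ht_iff F B f
    have hfin : (Polys F g B).Finite := by rw [e1]; exact hHt
    refine ⟨hfin, ?_, ?_⟩
    · rw [Set.ncard_pos hfin]
      refine ⟨X ^ (2 * g + 1), monic_X_pow _, natDegree_X_pow _, ?_, fun j hj σ => ?_⟩
      · rw [coeff_X_pow, if_neg (by omega)]
      · rw [coeff_X_pow, if_neg (by omega)]
        rw [show ((0 : 𝓞 F) : F) = 0 from rfl, map_zero, norm_zero]
        positivity
    · rw [e1]
      refine hle.trans ?_
      have h3 : {f : (𝓞 F)[X] | Pool.Agent.N783.PF.Ht g B f ∧
          Irreducible (Pool.Agent.N783.PF.fF f) ∧ Pool.Agent.N783.PF.SelZero f ∧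
          Pool.Agent.N783.PF.Min g f} ⊆ Good F g B := by
        rintro f ⟨h4, h5, h6, h7⟩
        exact ⟨(ht_iff F B f).2 h4, h7, h5, localGlobal F hg h4.mon h4.deg h5 h6⟩
      exact_mod_cast Set.ncard_le_ncard h3 (hfin.subset fun a ha => ha.1)
  · intro f hf hd hs h hh E _ φ y hy
    have hf' : (f.map φ).Monic := hf.map φ
    have hd' : (f.map φ).natDegree = 2 * g + 1 := by rw [hf.natDegree_map, hd]
    have hsf : Squarefree (f.map φ) := hs.map.squarefree
    have hh' : IsCoprime (h.map φ) (f.map φ) := hh.map (mapRingHom φ)
    exact ⟨Pool.Agent.H89.TC.smoothAt hg hf' hd' hsf hh' y hy,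
      Pool.Agent.H89.TC.hasSpace_of_isPoint hf' hd' hg hsf hh' hy⟩

end Pool.Agent.Results.MP_1ad228_nt.TwoCoverings
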